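import Mathlib

set_option autoImplicit false

namespace Pool.Agent.Lib.MP_947c47_gt

open Complex Set

/-- `v` is the total variation of a continuous logarithm of `γ` between times 0 and 1. -/
def Var (γ : ℝ → ℂ) (v : ℂ) : Prop :=
  ∃ L : ℝ → ℂ, Continuous L ∧ (∀ s, exp (L s) = γ s) ∧ L 1 - L 0 = v

theorem exists_lift {A : Type} [TopologicalSpace A] [SimplyConnectedSpace A]
    [LocallyPathConnectedSpace A] (a : A) (H : A → ℂ) (hH : Continuous H) (h0 : ∀ x, H x ≠ 0) :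
    ∃ L : A → ℂ, Continuous L ∧ ∀ x, exp (L x) = H x := by
  obtain ⟨F, ⟨-, hF⟩, -⟩ := isCoveringMapOn_exp.existsUnique_continuousMap_lifts
    (⟨H, hH⟩ : C(A, ℂ)) (a₀ := a) (e₀ := log (H a)) (exp_log (h0 a)) (fun x => h0 x)
  exact ⟨F, F.continuous, fun x => congrFun hF x⟩

theorem exists_var (γ : ℝ → ℂ) (hγ : Continuous γ) (h0 : ∀ s, γ s ≠ 0) : ∃ v, Var γ v := by
  obtain ⟨L, hL, hL'⟩ := exists_lift (0 : ℝ) γ hγ h0
  exact ⟨_, L, hL, hL', rfl⟩

theorem Var.unique {γ : ℝ → ℂ} {v v' : ℂ} (h : Var γ v) (h' : Var γ v') : v = v' := by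
  obtain ⟨L, hL, hLe, rfl⟩ := h
  obtain ⟨L', hL', hLe', rfl⟩ := h'
  have h1 : exp (L 0 - L' 0) = 1 := by
    rw [exp_sub, hLe, hLe', div_self]
    rw [← hLe]; exact exp_ne_zero _
  have key : L = fun s => L' s + (L 0 - L' 0) := by
    refine isCoveringMap_exp.eq_of_comp_eq hL (by fun_prop) ?_ 0 (by ring)
    funext s
    simp only [Function.comp_apply, Subtype.mk.injEq]
    rw [exp_add, h1, mul_one, hLe, hLe']
  have : L 1 = L' 1 + (L 0 - L' 0) := congrFun key 1
  rw [this]; ring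

theorem var_slit (γ : ℝ → ℂ) (hγ : Continuous γ) (ζ : ℂ) (hζ : ζ ≠ 0)
    (h : ∀ s, ζ * γ s ∈ slitPlane) : Var γ (log (ζ * γ 1) - log (ζ * γ 0)) := by
  refine ⟨fun s => log (ζ * γ s) - log ζ, ?_, fun s => ?_, by ring⟩
  · refine Continuous.sub ?_ continuous_const
    exact Continuous.clog (by fun_prop) h
  · rw [exp_sub, exp_log (slitPlane_ne_zero (h s)), exp_log hζ]
    field_simp

theorem var_square (p q : ℝ → ℂ) (hp : Continuous p) (hq : Continuous q)
    (hne : ∀ s t, p s ≠ q t) :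
    ∃ v1 v2 v3 v4 : ℂ, Var (fun s => p s - q 0) v1 ∧ Var (fun t => p 1 - q t) v2 ∧
      Var (fun t => p 0 - q t) v3 ∧ Var (fun s => p s - q 1) v4 ∧ v1 + v2 = v3 + v4 := by
  obtain ⟨L, hL, hLe⟩ := exists_lift ((0, 0) : ℝ × ℝ) (fun x : ℝ × ℝ => p x.1 - q x.2)
    (by fun_prop) (fun x => sub_ne_zero.mpr (hne _ _))
  refine ⟨L (1, 0) - L (0, 0), L (1, 1) - L (1, 0), L (0, 1) - L (0, 0), L (1, 1) - L (0, 1),
    ⟨fun s => L (s, 0), by fun_prop, fun s => hLe _, rfl⟩,
    ⟨fun s => L (1, s), by fun_prop, fun s => hLe _, rfl⟩,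
    ⟨fun s => L (0, s), by fun_prop, fun s => hLe _, rfl⟩,
    ⟨fun s => L (s, 1), by fun_prop, fun s => hLe _, rfl⟩, by ring⟩

/-- Two paths with the same ends that both avoid a path `q` whose end sees them in a slit plane
wind equally around the start of `q`. -/
theorem var_eq_of_avoid (p p' q : ℝ → ℂ) (hp : Continuous p) (hp' : Continuous p')
    (hq : Continuous q) (h0 : p 0 = p' 0) (h1 : p 1 = p' 1)
    (hne : ∀ s t, p s ≠ q t) (hne' : ∀ s t, p' s ≠ q t) (ζ : ℂ) (hζ : ζ ≠ 0)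
    (hs : ∀ s, ζ * (p s - q 1) ∈ slitPlane) (hs' : ∀ s, ζ * (p' s - q 1) ∈ slitPlane)
    {v v' : ℂ} (hv : Var (fun s => p s - q 0) v) (hv' : Var (fun s => p' s - q 0) v') :
    v = v' := by
  obtain ⟨v1, v2, v3, v4, a1, a2, a3, a4, e⟩ := var_square p q hp hq hne
  obtain ⟨w1, w2, w3, w4, b1, b2, b3, b4, e'⟩ := var_square p' q hp' hq hne'
  have c4 := a4.unique (var_slit _ (by fun_prop) ζ hζ hs)
  have d4 := b4.unique (var_slit _ (by fun_prop) ζ hζ hs')
  rw [h1] at a2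
  rw [h0] at a3
  have c2 := a2.unique b2
  have c3 := a3.unique b3
  have c1 := hv.unique a1
  have d1 := hv'.unique b1
  simp only [h0, h1] at c4
  rw [c1, d1]
  linear_combination e - e' + c3 + c4 - d4 - c2

theorem mem_slit_of_re_nonneg {z : ℂ} (h : 0 ≤ z.re) (h0 : z ≠ 0) : z ∈ slitPlane := by
  rw [mem_slitPlane_iff]
  by_contra hc
  push Not at hc
  apply h0
  apply Complex.ext <;> simp <;> linarith [hc.1, hc.2]

/-- The crossing lemma in the form used below. -/
theorem crossing (p q : ℝ → ℂ) (hp : Continuous p) (hq : Continuous q)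
    (hne : ∀ s t, p s ≠ q t) (T : ℝ) (hp1 : (p 1).re = T) (hq0 : (q 0).re = T)
    (hlt : (q 0).im < (p 1).im) (hpT : ∀ s, (p s).re ≤ T) (hqT : ∀ t, (q t).re ≤ T)
    (hbot : ∀ t, (p 0).im < (q t).im)
    (hend : (∀ s, (p s).im < (q 1).im) ∨ (∀ s, (q 1).re < (p s).re)) : False := by
  obtain ⟨v1, v2, v3, v4, a1, a2, a3, a4, e⟩ := var_square p q hp hq hne
  have c1 := a1.unique (var_slit _ (by fun_prop) (-1) (by norm_num) (fun s => by
    apply mem_slit_of_re_nonneg
    · simp; linarith [hpT s]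
    · simpa using sub_ne_zero.mpr (hne s 0).symm))
  have c2 := a2.unique (var_slit _ (by fun_prop) 1 (by norm_num) (fun t => by
    apply mem_slit_of_re_nonneg
    · simp; linarith [hqT t]
    · simpa using sub_ne_zero.mpr (hne 1 t)))
  have c3 := a3.unique (var_slit _ (by fun_prop) 1 (by norm_num) (fun t => by
    rw [mem_slitPlane_iff]; right
    simp; linarith [hbot t]))
  have c4 := a4.unique (var_slit _ (by fun_prop) 1 (by norm_num) (fun s => by
    rw [mem_slitPlane_iff]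
    rcases hend with h | h
    · right; simp; linarith [h s]
    · left; simp; linarith [h s]))
  simp only [one_mul, neg_one_mul] at c1 c2 c3 c4
  have hA : (p 0 - q 0).im < 0 := by simp; linarith [hbot 0]
  have hB : 0 < (p 1 - q 0).im := by simp; linarith
  have e1 := arg_neg_eq_arg_add_pi_of_im_neg hA
  have e2 := arg_neg_eq_arg_sub_pi_of_im_pos hB
  have := congrArg Complex.im e
  rw [c1, c2, c3, c4] at this
  simp only [add_im, sub_im, log_im] at this
  rw [e1, e2] at this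
  linarith [Real.pi_pos]

end Pool.Agent.Lib.MP_947c47_gt
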