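import Pool.Agent.Lib.MP_947c47_gt.Cyl

set_option autoImplicit false

namespace Pool.Agent.Lib.MP_947c47_gt

open Complex Set Filter Topology

/-- Along every direction the function has a limit, uniformly on strips. -/
def Rad (F : ℂ → ℝ) : Prop :=
  ∀ ω : ℂ, ω ≠ 0 → ∃ c : ℝ, ∀ B η : ℝ, 0 < η → ∃ T : ℝ, ∀ t : ℝ, T ≤ t → ∀ w : ℂ, ‖w‖ ≤ B →
    |F (t * ω + w) - c| < η

theorem Rad.neg {F : ℂ → ℝ} (h : Rad F) : Rad (fun z => -F z) := by
  intro ω hω
  obtain ⟨c, hc⟩ := h ω hω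
  refine ⟨-c, fun B η hη => ?_⟩
  obtain ⟨T, hT⟩ := hc B η hη
  refine ⟨T, fun t ht w hw => ?_⟩
  have := hT t ht w hw
  rw [← abs_neg] at this
  have e : -F (t * ω + w) - -c = -(F (t * ω + w) - c) := by ring
  rw [e]; exact this

theorem Rad.comp_sim {F : ℂ → ℝ} (h : Rad F) (y d : ℂ) (hd : d ≠ 0) :
    Rad (fun w => F (y + d * w)) := by
  intro ω hω
  obtain ⟨c, hc⟩ := h (d * ω) (mul_ne_zero hd hω)
  refine ⟨c, fun B η hη => ?_⟩
  obtain ⟨T, hT⟩ := hc (‖y‖ + ‖d‖ * B) η hη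
  refine ⟨T, fun t ht w hw => ?_⟩
  have := hT t ht (y + d * w) (by
    calc ‖y + d * w‖ ≤ ‖y‖ + ‖d * w‖ := norm_add_le _ _
      _ = ‖y‖ + ‖d‖ * ‖w‖ := by rw [norm_mul]
      _ ≤ ‖y‖ + ‖d‖ * B := by gcongr)
  have e : y + d * (t * ω + w) = t * (d * ω) + (y + d * w) := by ring
  simp only
  rw [e]; exact this

theorem far {F : ℂ → ℝ} (hc : Continuous F) (hs : Sub F) {M : ℝ} (hM : ∀ z, |F z| ≤ M)
    (hr : Rad F) {a b : ℝ} (ha : a ≠ 0) (s B : ℝ) {y : ℂ}
    (hy : 0 < F y - s - (a * y.re + b * y.im)) :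
    ∃ z : ℂ, a * z.re + b * z.im ≤ -B ∧
      JoinedIn {z : ℂ | 0 < F z - s - (a * z.re + b * z.im)} y z := by
  set ω : ℂ := ⟨b, -a⟩ with hω
  have hω0 : ω ≠ 0 := by
    intro h
    have := congrArg Complex.im h
    simp [hω] at this
    exact ha this
  set N := a ^ 2 + b ^ 2 with hN
  have hN0 : 0 < N := by positivity
  have hlin : ∀ w : ℂ, a * (0 + ω * w).re + b * (0 + ω * w).im = N * w.im := by
    intro w
    simp only [hω, hN, zero_add, mul_re, mul_im]
    ring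
  have hM0 : 0 ≤ M := le_trans (abs_nonneg _) (hM 0)
  set L := (M + |s| + |B|) / N with hL
  have hNL : N * L = M + |s| + |B| := by rw [hL]; field_simp
  obtain ⟨c, hcc⟩ := hr ω hω0
  have hlim : Lim (fun w => F (0 + ω * w)) (fun _ => c) := by
    intro L' η hη
    obtain ⟨T, hT⟩ := hcc (‖ω‖ * L') η hη
    refine ⟨T, fun t ht l hl => ?_⟩
    have := hT t ht (ω * (l * I)) (by
      rw [norm_mul, norm_mul, norm_I, mul_one, norm_real, Real.norm_eq_abs]
      gcongr)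
    have e : (0 : ℂ) + ω * ⟨t, l⟩ = t * ω + ω * (l * I) := by
      rw [mk_eq_add_mul_I]; ring
    simp only
    rw [e]; exact this
  have hy' : (0 : ℂ) + ω * (y / ω) = y := by field_simp; ring
  obtain ⟨z, hz1, hz2⟩ := bot_of_antitone (G := fun w => F (0 + ω * w) - s - N * w.im)
    (by fun_prop) ((hs.comp_sim 0 ω hω0).tilt s N) (y0 := y / ω)
    (by rw [← hlin, hy']; exact hy) (L := L) (M := M + |s| + N * L)
    (fun z hz => by
      have h1 := abs_le.mp (hM (0 + ω * z))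
      have h2 : N * L ≤ N * z.im := by gcongr
      linarith [neg_abs_le s, abs_nonneg B])
    (fun z hz => by
      have h1 := abs_le.mp (hM (0 + ω * z))
      have h2 : N * (-z.im) ≤ N * L := by
        gcongr; linarith [(abs_le.mp hz).1]
      linarith [neg_abs_le s])
    (hlim.add_lin s N) (fun x y hxy => by
      show c - s - N * y ≤ c - s - N * x
      have : N * x ≤ N * y := by gcongr
      linarith)
  refine ⟨0 + ω * z, ?_, ?_⟩
  · rw [hlin]
    have h2 : N * z.im ≤ N * (-L) := by gcongr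
    linarith [abs_nonneg s, le_abs_self B]
  · have := hz2.map (f := fun w => 0 + ω * w) (by fun_prop)
    simp only [hy'] at this
    refine this.mono ?_
    rintro _ ⟨w, hw, rfl⟩
    show 0 < F (0 + ω * w) - s - (a * (0 + ω * w).re + b * (0 + ω * w).im)
    rw [hlin]; exact hw

theorem joined_pos {F : ℂ → ℝ} (hc : Continuous F) (hs : Sub F) {M : ℝ} (hM : ∀ z, |F z| ≤ M)
    (hr : Rad F) {a b : ℝ} (ha : a ≠ 0) (s : ℝ) {y y' : ℂ}
    (hy : 0 < F y - s - (a * y.re + b * y.im)) (hy' : 0 < F y' - s - (a * y'.re + b * y'.im)) :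
    JoinedIn {z : ℂ | 0 < F z - s - (a * z.re + b * z.im)} y y' := by
  obtain ⟨z, hz1, hz2⟩ := far hc hs hM hr ha s (M + |s| + 1) hy
  obtain ⟨z', hz1', hz2'⟩ := far hc hs hM hr ha s (M + |s| + 1) hy'
  refine hz2.trans (JoinedIn.trans ?_ hz2'.symm)
  apply JoinedIn.of_segment_subset
  rintro w ⟨r1, r2, h1, h2, h3, rfl⟩
  show 0 < F _ - s - _
  have e : a * (r1 • z + r2 • z').re + b * (r1 • z + r2 • z').im =
      r1 * (a * z.re + b * z.im) + r2 * (a * z'.re + b * z'.im) := by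
    simp; ring
  rw [e]
  have h4 := abs_le.mp (hM (r1 • z + r2 • z'))
  have h5 := mul_le_mul_of_nonneg_left hz1 h1
  have h6 := mul_le_mul_of_nonneg_left hz1' h2
  have h7 : r1 * -(M + |s| + 1) + r2 * -(M + |s| + 1) = -(M + |s| + 1) := by
    rw [← add_mul, h3, one_mul]
  linarith [le_abs_self s]

theorem const_aux {F : ℂ → ℝ} (hc : Continuous F) (hs : Sub F) (hs' : Sub (fun z => -F z))
    {M : ℝ} (hM : ∀ z, |F z| ≤ M) (hr : Rad F) (hlt : F 0 < F 1) : False := by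
  have hM0 : 0 ≤ M := le_trans (abs_nonneg _) (hM 0)
  set ε := (F 1 - F 0) / 2 with hε
  have hε0 : 0 < ε := by rw [hε]; linarith
  set s := F 0 + ε / 2 with hs0
  set L := (M + |s| + 1) / ε with hL
  have hεL : ε * L = M + |s| + 1 := by rw [hL]; field_simp
  have hL0 : 0 < L := by positivity
  let U : ℝ → Set ℂ := fun θ => {z : ℂ | 0 < F z - s - (ε * z.re + θ * z.im)}
  have h1U : ∀ θ, (1 : ℂ) ∈ U θ := fun θ => by
    show 0 < F 1 - s - (ε * (1 : ℂ).re + θ * (1 : ℂ).im)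
    simp; linarith
  have hLU : ∀ θ, (⟨-L, 0⟩ : ℂ) ∈ U θ := fun θ => by
    show 0 < F ⟨-L, 0⟩ - s - (ε * (-L) + θ * 0)
    have := abs_le.mp (hM ⟨-L, 0⟩)
    linarith [le_abs_self s]
  have h0U : ∀ θ, (0 : ℂ) ∉ U θ := fun θ h => by
    have : 0 < F 0 - s - (ε * (0 : ℂ).re + θ * (0 : ℂ).im) := h
    simp at this; linarith
  let A : ℝ → ℂ → Prop := fun θ v =>
    ∃ γ : Path (1 : ℂ) ⟨-L, 0⟩, (∀ t, γ t ∈ U θ) ∧ Var γ.extend v
  have hext : ∀ θ (γ : Path (1 : ℂ) ⟨-L, 0⟩), (∀ t, γ t ∈ U θ) → ∀ r, γ.extend r ∈ U θ := by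
    intro θ γ hγ r
    have : γ.extend r ∈ range γ.extend := ⟨r, rfl⟩
    rw [γ.extend_range] at this
    obtain ⟨t, ht⟩ := this
    rw [← ht]
    exact hγ t
  have hex : ∀ θ, ∃ v, A θ v := fun θ => by
    obtain ⟨γ, hγ⟩ := joined_pos hc hs hM hr hε0.ne' s (h1U θ) (hLU θ)
    obtain ⟨v, hv⟩ := exists_var γ.extend γ.continuous_extend (fun r h => h0U θ (by
      rw [← h]; exact hext θ γ hγ r))
    exact ⟨v, γ, hγ, hv⟩
  have huniq : ∀ θ v v', A θ v → A θ v' → v = v' := by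
    rintro θ v v' ⟨γ, hγ, hv⟩ ⟨γ', hγ', hv'⟩
    obtain ⟨z, hz1, hz2⟩ := far (F := fun z => -F z) hc.neg hs' (M := M)
      (fun z => by rw [abs_neg]; exact hM z) hr.neg (a := -ε) (b := -θ)
      (neg_ne_zero.mpr hε0.ne') (-s) (M + |s|) (y := 0) (by simp; linarith)
    obtain ⟨q, hq, hq0, hq1, hqV⟩ := exists_fun_of_joinedIn hz2
    have hdis : ∀ p ∈ U θ, ∀ t, p ≠ q t := by
      intro p hp t h
      have e1 : 0 < F p - s - (ε * p.re + θ * p.im) := hp
      have e2 : 0 < -F (q t) - -s - (-ε * (q t).re + -θ * (q t).im) := hqV t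
      rw [← h] at e2
      linarith
    have hζ : (⟨-ε, θ⟩ : ℂ) ≠ 0 := by
      intro h
      have := congrArg Complex.re h
      simp at this
      exact hε0.ne' this
    have hslit : ∀ p ∈ U θ, (⟨-ε, θ⟩ : ℂ) * (p - q 1) ∈ slitPlane := by
      intro p hp
      have e1 : 0 < F p - s - (ε * p.re + θ * p.im) := hp
      rw [mem_slitPlane_iff, hq1]
      left
      simp only [mul_re, sub_re, sub_im]
      have := abs_le.mp (hM p)
      linarith [neg_abs_le s]
    exact var_eq_of_avoid γ.extend γ'.extend q γ.continuous_extend γ'.continuous_extend hq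
      (by simp) (by simp) (fun r t => hdis _ (hext θ γ hγ r) t)
      (fun r t => hdis _ (hext θ γ' hγ' r) t) _ hζ (fun r => hslit _ (hext θ γ hγ r))
      (fun r => hslit _ (hext θ γ' hγ' r)) (by simpa [hq0] using hv) (by simpa [hq0] using hv')
  have hloc : ∀ θ v, A θ v → ∀ᶠ θ' in 𝓝 θ, A θ' v := by
    rintro θ v ⟨γ, hγ, hv⟩
    have := (isCompact_range γ.continuous).eventually_forall_of_forall_eventually (x₀ := θ)
      (P := fun θ' z => 0 < F z - s - (ε * z.re + θ' * z.im)) (by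
        rintro _ ⟨t, rfl⟩
        have hcont : Continuous
            (fun x : ℝ × ℂ => F x.2 - s - (ε * x.2.re + x.1 * x.2.im)) := by fun_prop
        exact hcont.continuousAt.eventually (lt_mem_nhds (hγ t)))
    filter_upwards [this] with θ' h
    exact ⟨γ, fun t => h _ ⟨t, rfl⟩, hv⟩
  choose f hf using hex
  have hf' : IsLocallyConstant f := by
    rw [IsLocallyConstant.iff_eventually_eq]
    intro θ
    filter_upwards [hloc θ _ (hf θ)] with θ' h
    exact huniq θ' _ _ (hf θ') h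
  have hend : ∀ d : ℝ, |d| = 1 →
      ∃ θ, A θ (log ((d * I) * ⟨-L, 0⟩) - log ((d * I) * 1)) := by
    intro d hd
    have hdd : d * d = 1 := by rw [← abs_mul_abs_self, hd, one_mul]
    have hd0 : d ≠ 0 := by intro h; rw [h] at hd; simp at hd
    have hcl : Continuous (fun l : ℝ => F ⟨1, l⟩) := by
      have : (fun l : ℝ => F ⟨1, l⟩) = fun l : ℝ => F (((1 : ℝ) : ℂ) + (l : ℂ) * I) := by
        funext l; congr 1; apply Complex.ext <;> simp
      rw [this]; fun_prop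
    obtain ⟨r, hr0, hr'⟩ := Metric.continuousAt_iff.mp (hcl.continuousAt (x := 0)) (ε / 2)
      (by linarith)
    set Θ := (M + |s| + ε + 1) / (r / 2) with hΘ
    have hΘr : Θ * (r / 2) = M + |s| + ε + 1 := by rw [hΘ]; field_simp
    have hΘ0 : 0 < Θ := by positivity
    have hmem : ∀ l ∈ uIcc (0 : ℝ) (-d * (r / 2)), d * l ≤ 0 ∧ |l| ≤ r / 2 := by
      intro l hl
      rw [← segment_eq_uIcc] at hl
      obtain ⟨r1, r2, h1, h2, h3, rfl⟩ := hl
      simp only [smul_eq_mul, mul_zero, zero_add]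
      constructor
      · have : d * (r2 * (-d * (r / 2))) = -(d * d) * (r2 * (r / 2)) := by ring
        rw [this, hdd]
        have : 0 ≤ r2 * (r / 2) := by positivity
        linarith
      · rw [abs_mul, abs_mul, abs_neg, hd, abs_of_nonneg h2, abs_of_pos (by linarith)]
        nlinarith
    have e1 : (⟨1, 0⟩ : ℂ) = 1 := rfl
    have j1 : JoinedIn (U (d * Θ) ∩ {z | d * z.im ≤ 0}) ⟨1, 0⟩ ⟨1, -d * (r / 2)⟩ := by
      refine join_vert _ _ _ fun l hl => ⟨?_, (hmem l hl).1⟩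
      show 0 < F ⟨1, l⟩ - s - (ε * 1 + d * Θ * l)
      have h1 := hr' (x := l) (by rw [Real.dist_eq, sub_zero]; linarith [(hmem l hl).2])
      rw [Real.dist_eq, e1] at h1
      have h2 := abs_lt.mp h1
      have h3 : d * Θ * l ≤ 0 := by
        have := mul_le_mul_of_nonneg_left (hmem l hl).1 hΘ0.le
        linarith
      linarith
    have j2 : JoinedIn (U (d * Θ) ∩ {z | d * z.im ≤ 0}) ⟨1, -d * (r / 2)⟩ ⟨-L, -d * (r / 2)⟩ := by
      refine join_hor _ _ _ fun t ht => ⟨?_, (hmem _ right_mem_uIcc).1⟩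
      show 0 < F ⟨t, -d * (r / 2)⟩ - s - (ε * t + d * Θ * (-d * (r / 2)))
      rw [uIcc_of_ge (by linarith)] at ht
      have h1 := abs_le.mp (hM ⟨t, -d * (r / 2)⟩)
      have h2 : d * Θ * (-d * (r / 2)) = -(d * d) * (Θ * (r / 2)) := by ring
      have h3 : ε * t ≤ ε * 1 := by gcongr; exact ht.2
      rw [h2, hdd, hΘr]
      linarith [le_abs_self s]
    have j3 : JoinedIn (U (d * Θ) ∩ {z | d * z.im ≤ 0}) ⟨-L, 0⟩ ⟨-L, -d * (r / 2)⟩ := by
      refine join_vert _ _ _ fun l hl => ⟨?_, (hmem l hl).1⟩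
      show 0 < F ⟨-L, l⟩ - s - (ε * (-L) + d * Θ * l)
      have h1 := abs_le.mp (hM ⟨-L, l⟩)
      have h3 : d * Θ * l ≤ 0 := by
        have := mul_le_mul_of_nonneg_left (hmem l hl).1 hΘ0.le
        linarith
      linarith [le_abs_self s]
    obtain ⟨γ, hγ⟩ := (j1.trans j2).trans j3.symm
    refine ⟨d * Θ, γ, fun t => (hγ t).1, ?_⟩
    have hζ : (d * I : ℂ) ≠ 0 := mul_ne_zero (by exact_mod_cast hd0) I_ne_zero
    have := var_slit γ.extend γ.continuous_extend (d * I) hζ (fun t => by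
      have h1 : γ.extend t ∈ range γ.extend := ⟨t, rfl⟩
      rw [γ.extend_range] at h1
      obtain ⟨t', ht'⟩ := h1
      rw [← ht']
      apply mem_slit_of_re_nonneg
      · have : d * (γ t').im ≤ 0 := (hγ t').2
        simp; linarith
      · refine mul_ne_zero hζ fun h => h0U (d * Θ) ?_
        rw [← h]; exact (hγ t').1)
    rwa [γ.extend_one, γ.extend_zero] at this
  obtain ⟨θ1, h1⟩ := hend 1 (by simp)
  obtain ⟨θ2, h2⟩ := hend (-1) (by simp)
  have e := hf'.apply_eq_of_preconnectedSpace θ1 θ2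
  rw [huniq _ _ _ (hf θ1) h1, huniq _ _ _ (hf θ2) h2] at e
  have e' := congrArg Complex.im e
  simp only [sub_im, log_im] at e'
  have a1 : arg (((1 : ℝ) : ℂ) * I * ⟨-L, 0⟩) = -(Real.pi / 2) := by
    rw [arg_eq_neg_pi_div_two_iff]; simp; exact hL0
  have a2 : arg (((1 : ℝ) : ℂ) * I * 1) = Real.pi / 2 := by
    rw [arg_eq_pi_div_two_iff]; simp
  have a3 : arg (((-1 : ℝ) : ℂ) * I * ⟨-L, 0⟩) = Real.pi / 2 := by
    rw [arg_eq_pi_div_two_iff]; simp; exact hL0
  have a4 : arg (((-1 : ℝ) : ℂ) * I * 1) = -(Real.pi / 2) := by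
    rw [arg_eq_neg_pi_div_two_iff]; simp
  rw [a1, a2, a3, a4] at e'
  linarith [Real.pi_pos]

/-- A bounded saddle function with radial limits along strips is constant. -/
theorem const_of_rad {F : ℂ → ℝ} (hc : Continuous F) (hs : Sub F) (hs' : Sub (fun z => -F z))
    {M : ℝ} (hM : ∀ z, |F z| ≤ M) (hr : Rad F) (y1 y2 : ℂ) : F y1 = F y2 := by
  have key : ∀ y1 y2, ¬ F y1 < F y2 := by
    intro y1 y2 h
    have hd : y2 - y1 ≠ 0 := by
      intro h'
      rw [sub_eq_zero.mp h'] at h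
      exact lt_irrefl _ h
    exact const_aux (F := fun w => F (y1 + (y2 - y1) * w)) (by fun_prop) (hs.comp_sim _ _ hd)
      (hs'.comp_sim _ _ hd) (fun z => hM _) (hr.comp_sim _ _ hd) (by simpa using h)
  exact le_antisymm (not_lt.mp (key y2 y1)) (not_lt.mp (key y1 y2))

end Pool.Agent.Lib.MP_947c47_gt
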