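import Pool.Agent.Lib.MP_947c47_gt.Thin

set_option autoImplicit false

namespace Pool.Agent.Lib.MP_947c47_gt

open Complex Set

theorem Lim.add_lin {F : ℂ → ℝ} {g : ℝ → ℝ} (h : Lim F g) (s e : ℝ) :
    Lim (fun z => F z - s - e * z.im) (fun l => g l - s - e * l) := by
  intro L η hη
  obtain ⟨T, hT⟩ := h L η hη
  refine ⟨T, fun t ht l hl => ?_⟩
  have := hT t ht l hl
  have e : F ⟨t, l⟩ - s - e * (⟨t, l⟩ : ℂ).im - (g l - s - e * l) = F ⟨t, l⟩ - g l := by
    simp only; ring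
  rw [e]; exact this

theorem Sub.tilt {F : ℂ → ℝ} (h : Sub F) (s e : ℝ) : Sub (fun z => F z - s - e * z.im) :=
  (h.add_affine (-s) 0 (-e)).congr fun z => by ring

theorem Sub.tilt_neg {F : ℂ → ℝ} (h : Sub (fun z => -F z)) (s e : ℝ) :
    Sub (fun z => -(F z - s - e * z.im)) :=
  (h.add_affine s 0 e).congr fun z => by ring

/-- A bounded saddle function whose limit at the right end is a ramp is constant on the upper
kink line. -/
theorem cylinder {F : ℂ → ℝ} (hc : Continuous F) (hs : Sub F) (hs' : Sub (fun z => -F z))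
    {M : ℝ} (hM : ∀ z, |F z| ≤ M) {g : ℝ → ℝ} (hg : Lim F g) {l1 l2 α β κ : ℝ} (hl : l1 < l2)
    (hκ : 0 < κ) (hβ : β = α + κ * (l2 - l1)) (g1 : ∀ l, l ≤ l1 → g l = α)
    (g2 : ∀ l, l1 ≤ l → l ≤ l2 → g l = α + κ * (l - l1)) (g3 : ∀ l, l2 ≤ l → g l = β)
    (t0 : ℝ) : F ⟨t0, l2⟩ = β := by
  have hM0 : 0 ≤ M := le_trans (abs_nonneg _) (hM 0)
  set S := |α| + |β| + κ * (|l1| + |l2|) with hS
  have hS0 : 0 ≤ S := by positivity
  set L := 4 * (M + S) / κ + |l1| + |l2| + 1 with hL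
  have hL0 : 0 ≤ 4 * (M + S) / κ := by positivity
  have hLκ : M + S ≤ κ / 4 * L := by
    have e : κ / 4 * L = (M + S) + κ / 4 * (|l1| + |l2| + 1) := by rw [hL]; field_simp; ring
    have : 0 ≤ κ / 4 * (|l1| + |l2| + 1) := by positivity
    linarith
  have hl1 : |l1| ≤ L := by rw [hL]; linarith [abs_nonneg l2]
  have hl2 : |l2| ≤ L := by rw [hL]; linarith [abs_nonneg l1]
  have hLpos : 0 < L := by rw [hL]; linarith [abs_nonneg l1, abs_nonneg l2]
  have hl1' := abs_le.mp hl1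
  have hl2' := abs_le.mp hl2
  -- bounds on admissible levels
  have hlev : ∀ e s : ℝ, 0 ≤ e → e ≤ κ → α - e * l1 ≤ s → s ≤ β - e * l2 → |s| ≤ S := by
    intro e s h0 h1 h2 h3
    have a1 : |e * l1| ≤ κ * |l1| := by
      rw [abs_mul, abs_of_nonneg h0]; exact mul_le_mul_of_nonneg_right h1 (abs_nonneg _)
    have a2 : |e * l2| ≤ κ * |l2| := by
      rw [abs_mul, abs_of_nonneg h0]; exact mul_le_mul_of_nonneg_right h1 (abs_nonneg _)
    have a3 : 0 ≤ κ * |l1| := by positivity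
    have a4 : 0 ≤ κ * |l2| := by positivity
    have b1 := abs_le.mp a1
    have b2 := abs_le.mp a2
    refine abs_le.mpr ⟨?_, ?_⟩
    · linarith [neg_abs_le α, abs_nonneg β]
    · linarith [le_abs_self β, abs_nonneg α]
  have htop : ∀ e s : ℝ, κ / 4 ≤ e → |s| ≤ S → ∀ z : ℂ, L ≤ z.im → F z - s - e * z.im ≤ 0 := by
    intro e s h0 h1 z hz
    have a1 := abs_le.mp (hM z)
    have a2 := abs_le.mp h1
    have a3 : κ / 4 * L ≤ e * z.im := mul_le_mul h0 hz hLpos.le (by linarith)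
    linarith
  have hbot : ∀ e s : ℝ, κ / 4 ≤ e → |s| ≤ S → ∀ z : ℂ, z.im ≤ -L → 0 ≤ F z - s - e * z.im := by
    intro e s h0 h1 z hz
    have a1 := abs_le.mp (hM z)
    have a2 := abs_le.mp h1
    have a3 : κ / 4 * L ≤ e * (-z.im) := mul_le_mul h0 (by linarith) hLpos.le (by linarith)
    linarith
  have hbd : ∀ e s : ℝ, 0 ≤ e → e ≤ κ → |s| ≤ S → ∀ z : ℂ, |z.im| ≤ L →
      |F z - s - e * z.im| ≤ M + S + κ * L := by
    intro e s h0 h0' h1 z hz
    have a1 := abs_le.mp (hM z)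
    have a2 := abs_le.mp h1
    have a3 : |e * z.im| ≤ κ * L := by
      rw [abs_mul, abs_of_nonneg h0]; exact mul_le_mul h0' hz (abs_nonneg _) hκ.le
    have a4 := abs_le.mp a3
    exact abs_le.mpr ⟨by linarith, by linarith⟩
  have hcont : ∀ e s : ℝ, Continuous (fun z : ℂ => F z - s - e * z.im) := fun e s => by fun_prop
  have factA : ∀ e s : ℝ, κ / 4 ≤ e → e ≤ 3 * κ / 4 → |s| ≤ S → ∀ y : ℂ,
      0 < F y - s - e * y.im → ¬ Bot (fun z => F z - s - e * z.im) L y →
      F y - s - e * y.im ≤ β - s - e * l2 ∧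
        ∃ T, ∀ t, T ≤ t → JoinedIn {z : ℂ | 0 < F z - s - e * z.im} y ⟨t, l2⟩ := by
    intro e s h0 h1 h2 y hy hb
    have := zigzag (hcont e s) (hs.tilt s e) hy (htop e s h0 h2)
      (fun z hz => (abs_le.mp (hbd e s (by linarith) (by linarith) h2 z hz)).2)
      (hg.add_lin s e) (l1 := l1) hl2 ?_ ?_ ?_ hb
    · rwa [g3 l2 le_rfl] at this
    · intro a ha b hb hab
      simp only
      rw [g1 a ha, g1 b hb]
      nlinarith
    · intro a ha b hb hab
      simp only
      rw [g2 a ha.1 ha.2, g2 b hb.1 hb.2]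
      nlinarith
    · intro a ha b hb hab
      simp only
      rw [g3 a ha, g3 b hb]
      nlinarith
  have factB : ∀ e s : ℝ, κ / 4 ≤ e → e ≤ 3 * κ / 4 → α - e * l1 < s → s < β - e * l2 →
      ∃ T, ∀ t, T ≤ t → 0 < F ⟨t, l2⟩ - s - e * (⟨t, l2⟩ : ℂ).im ∧
        ¬ Bot (fun z => F z - s - e * z.im) L ⟨t, l2⟩ := by
    intro e s h0 h1 h2 h3
    have h4 := hlev e s (by linarith) (by linarith) h2.le h3.le
    exact not_bot_ray (hcont e s) (hs'.tilt_neg s e) (htop e s h0 h4) (hbot e s h0 h4)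
      (M := M + S + κ * L)
      (fun z hz => by linarith [(abs_le.mp (hbd e s (by linarith) (by linarith) h4 z hz)).1])
      (hg.add_lin s e) hl1 hl2 hl (by rw [g1 l1 le_rfl]; linarith)
      (by rw [g3 l2 le_rfl]; linarith)
  have main : ∀ ρ : ℝ, 0 < ρ → ∃ l, |l - l2| ≤ ρ ∧ |F ⟨t0, l⟩ - β| ≤ κ * ρ := by
    intro ρ hρ
    set e0 := κ / 2 with he0
    set Δ := κ * (l2 - l1) / 2 with hΔ
    have hΔ0 : 0 < Δ := by rw [hΔ]; have := mul_pos hκ (sub_pos.mpr hl); linarith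
    set δ := min (κ / 4) (Δ / (8 * L)) with hδ
    have hδ0 : 0 < δ := lt_min (by linarith) (by positivity)
    have hδ1 : δ ≤ κ / 4 := min_le_left _ _
    have hδ2 : δ * L ≤ Δ / 8 := by
      have : δ ≤ Δ / (8 * L) := min_le_right _ _
      calc δ * L ≤ Δ / (8 * L) * L := by gcongr
        _ = Δ / 8 := by field_simp
    set m := min (δ * ρ) (Δ / 2) with hm
    have hm0 : 0 < m := lt_min (by positivity) (by linarith)
    have hm1 : m ≤ δ * ρ := min_le_left _ _
    have hm2 : m ≤ Δ / 2 := min_le_right _ _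
    set s := β - e0 * l2 - m with hs0
    have hk : β - e0 * l2 - (α - e0 * l1) = Δ := by rw [hβ, he0, hΔ]; ring
    have hsS : |s| ≤ S := hlev e0 s (by linarith) (by linarith) (by linarith) (by linarith)
    obtain ⟨T1, hT1⟩ := factB e0 s (by linarith) (by linarith) (by linarith) (by linarith)
    obtain ⟨hy0, hnb⟩ := hT1 T1 le_rfl
    obtain ⟨l, hlL, hj, -⟩ := thin' (hcont e0 s) (hs.tilt s e0) hy0 (htop e0 s (by linarith) hsS)
      (fun z hz => (abs_le.mp (hbd e0 s (by linarith) (by linarith) hsS z hz)).2) hnb t0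
    have hy : 0 < F ⟨t0, l⟩ - s - e0 * l := hj.target_mem
    have hnb' : ¬ Bot (fun z => F z - s - e0 * z.im) L ⟨t0, l⟩ := by
      rintro ⟨b, hb1, hb2⟩
      exact hnb ⟨b, hb1, hj.trans hb2⟩
    obtain ⟨hup, T2, hT2⟩ := factA e0 s (by linarith) (by linarith) hsS ⟨t0, l⟩ hy hnb'
    simp only at hup
    have hclose : |l - l2| ≤ ρ := by
      by_contra hfar
      push Not at hfar
      obtain ⟨d, hd, hd0⟩ : ∃ d : ℝ, |d| = 1 ∧ ρ ≤ d * (l - l2) := by
        rcases lt_abs.mp hfar with h | h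
        · exact ⟨1, by simp, by linarith⟩
        · exact ⟨-1, by simp, by linarith⟩
      have hdδ : ∀ x : ℝ, |x| ≤ L → -(δ * L) ≤ d * δ * x ∧ d * δ * x ≤ δ * L := by
        intro x hx
        apply abs_le.mp
        rw [abs_mul, abs_mul, hd, one_mul, abs_of_pos hδ0]
        gcongr
      have hd1 := abs_le.mp hd.le
      set e1 := e0 - d * δ with he1
      have hdd : |d * δ| ≤ κ / 4 := by rw [abs_mul, hd, one_mul, abs_of_pos hδ0]; exact hδ1
      have hdd' := abs_le.mp hdd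
      have he1a : κ / 4 ≤ e1 := by linarith [hdd'.2]
      have he1b : e1 ≤ 3 * κ / 4 := by linarith [hdd'.1]
      have c1 := hdδ l1 hl1
      have c2 := hdδ l2 hl2
      have q1 : e1 * l1 = e0 * l1 - d * δ * l1 := by rw [he1]; ring
      have q2 : e1 * l2 = e0 * l2 - d * δ * l2 := by rw [he1]; ring
      have q3 : e1 * l = e0 * l - d * δ * l := by rw [he1]; ring
      have q4 : δ * ρ ≤ d * δ * l - d * δ * l2 := by
        have := mul_le_mul_of_nonneg_left hd0 hδ0.le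
        linarith
      set s1 := β - e1 * l2 with hs1
      have hs1S : |s1| ≤ S := hlev e1 s1 (by linarith) (by linarith) (by linarith) le_rfl
      have hy1 : 0 < F ⟨t0, l⟩ - s1 - e1 * (⟨t0, l⟩ : ℂ).im := by
        simp only
        linarith
      have hb1 : Bot (fun z => F z - s1 - e1 * z.im) L ⟨t0, l⟩ := by
        by_contra hnb1
        have := (factA e1 s1 he1a he1b hs1S ⟨t0, l⟩ hy1 hnb1).1
        linarith
      set s2 := s - δ * L with hs2
      obtain ⟨T3, hT3⟩ := factB e1 s2 he1a he1b (by linarith) (by linarith)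
      apply (hT3 (max T2 T3) (le_max_right _ _)).2
      obtain ⟨b, hb1, hb2⟩ := hb1
      refine ⟨b, hb1, JoinedIn.trans (y := ⟨t0, l⟩) ?_ (hb2.mono fun z hz => ?_)⟩
      · have hyU : (⟨t0, l⟩ : ℂ) ∈ {z : ℂ | 0 < F z - s - e0 * z.im} := hy
        have hm1 : (⟨max T2 T3, l2⟩ : ℂ) ∈
            pathComponentIn {z : ℂ | 0 < F z - s - e0 * z.im} ⟨t0, l⟩ := hT2 _ (le_max_left _ _)
        have hpc := (isPathConnected_pathComponentIn hyU).joinedIn
          _ hm1 _ (mem_pathComponentIn_self hyU)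
        refine hpc.mono fun z hz => ?_
        have hz0 : z ∈ {z : ℂ | 0 < F z - s - e0 * z.im} := pathComponentIn_subset hz
        have hz1 : 0 < F z - s - e0 * z.im := hz0
        have hz2 : |z.im| ≤ L := by
          refine abs_le.mpr ⟨?_, ?_⟩
          · by_contra h
            exact hnb' ⟨z, by linarith, hz⟩
          · by_contra h
            have := htop e0 s (by linarith) hsS z (by linarith)
            linarith
        have c3 := hdδ z.im hz2
        have q5 : e1 * z.im = e0 * z.im - d * δ * z.im := by rw [he1]; ring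
        show 0 < F z - s2 - e1 * z.im
        linarith
      · have hz1 : 0 < F z - s1 - e1 * z.im := hz
        show 0 < F z - s2 - e1 * z.im
        linarith
    have w1 : |e0 * (l - l2)| ≤ κ / 2 * ρ := by
      rw [abs_mul, abs_of_pos (show 0 < e0 by linarith)]
      exact mul_le_mul_of_nonneg_left hclose (by linarith)
    have w2 := abs_le.mp w1
    have w3 : δ * ρ ≤ κ / 4 * ρ := mul_le_mul_of_nonneg_right hδ1 hρ.le
    have w4 : e0 * (l - l2) = e0 * l - e0 * l2 := by ring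
    have w5 : 0 < κ * ρ := mul_pos hκ hρ
    refine ⟨l, hclose, abs_le.mpr ⟨?_, ?_⟩⟩
    · linarith [w2.1]
    · linarith [w2.2]
  by_contra hne
  set γ := |F ⟨t0, l2⟩ - β| with hγ
  have hγ0 : 0 < γ := abs_pos.mpr (sub_ne_zero.mpr hne)
  have hcl : Continuous (fun l : ℝ => F ⟨t0, l⟩) := by
    have : (fun l : ℝ => F ⟨t0, l⟩) = fun l : ℝ => F ((t0 : ℂ) + (l : ℂ) * I) := by
      funext l; congr 1; apply Complex.ext <;> simp
    rw [this]; fun_prop
  obtain ⟨r, hr, hr'⟩ := Metric.continuousAt_iff.mp (hcl.continuousAt (x := l2)) (γ / 2)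
    (by linarith)
  obtain ⟨l, h1, h2⟩ := main (min (r / 2) (γ / (4 * κ))) (lt_min (by linarith) (by positivity))
  have h3 : |F ⟨t0, l⟩ - F ⟨t0, l2⟩| < γ / 2 := by
    apply hr'
    rw [Real.dist_eq]
    linarith [min_le_left (r / 2) (γ / (4 * κ))]
  have h4 : κ * min (r / 2) (γ / (4 * κ)) ≤ γ / 4 := by
    calc κ * min (r / 2) (γ / (4 * κ)) ≤ κ * (γ / (4 * κ)) := by
          gcongr; exact min_le_right _ _
      _ = γ / 4 := by field_simp
  have h5 : γ ≤ |F ⟨t0, l⟩ - β| + |F ⟨t0, l⟩ - F ⟨t0, l2⟩| := by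
    rw [hγ]
    have := abs_sub_le (F ⟨t0, l2⟩) (F ⟨t0, l⟩) β
    rw [abs_sub_comm (F ⟨t0, l2⟩) (F ⟨t0, l⟩)] at this
    linarith
  linarith

end Pool.Agent.Lib.MP_947c47_gt
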