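import Pool.Agent.Lib.MP_947c47_gt.Wmp

set_option autoImplicit false

namespace Pool.Agent.Lib.MP_947c47_gt

open Set Filter Topology
open scoped InnerProductSpace

/-- The face of `K` in direction `a` is the segment from `p` to `q`. -/
structure IsFace (K : Set E3) (a p q : E3) : Prop where
  hp : p ∈ K
  hq : q ∈ K
  pa : ⟪p, a⟫_ℝ = sf K a
  qa : ⟪q, a⟫_ℝ = sf K a
  seg : ∀ x ∈ K, ⟪x, a⟫_ℝ = sf K a → x ∈ segment ℝ p q

theorem IsFace.symm {K : Set E3} {a p q : E3} (h : IsFace K a p q) : IsFace K a q p :=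
  ⟨h.hq, h.hp, h.qa, h.pa, fun x hx hx' => segment_symm ℝ p q ▸ h.seg x hx hx'⟩

theorem inner_le_max_of_mem_segment {p q x : E3} (hx : x ∈ segment ℝ p q) (w : E3) :
    ⟪x, w⟫_ℝ ≤ max ⟪p, w⟫_ℝ ⟪q, w⟫_ℝ := by
  obtain ⟨r1, r2, h1, h2, h3, rfl⟩ := hx
  rw [inner_add_left, real_inner_smul_left, real_inner_smul_left]
  have e1 := mul_le_mul_of_nonneg_left (le_max_left ⟪p, w⟫_ℝ ⟪q, w⟫_ℝ) h1
  have e2 := mul_le_mul_of_nonneg_left (le_max_right ⟪p, w⟫_ℝ ⟪q, w⟫_ℝ) h2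
  have e3 : r1 * max ⟪p, w⟫_ℝ ⟪q, w⟫_ℝ + r2 * max ⟪p, w⟫_ℝ ⟪q, w⟫_ℝ = max ⟪p, w⟫_ℝ ⟪q, w⟫_ℝ := by
    rw [← add_mul, h3, one_mul]
  linarith

theorem face_limit {K : Set E3} (hK : Body K) {a p q : E3} (h : IsFace K a p q) (B η : ℝ)
    (hη : 0 < η) : ∃ T : ℝ, ∀ t, T ≤ t → ∀ w : E3, ‖w‖ ≤ B →
      |sf K (t • a + w) - t * sf K a - max ⟪p, w⟫_ℝ ⟪q, w⟫_ℝ| < η := by
  obtain ⟨R, hR0, hR⟩ := hK.exists_bound
  set Z := (K ×ˢ Metric.closedBall (0 : E3) B) ∩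
    {y : E3 × E3 | max ⟪p, y.2⟫_ℝ ⟪q, y.2⟫_ℝ + η / 2 ≤ ⟪y.1, y.2⟫_ℝ} with hZ
  have hZc : IsCompact Z := (hK.comp.prod (isCompact_closedBall _ _)).inter_right
    (isClosed_le (by fun_prop) (by fun_prop))
  obtain ⟨ζ, hζ0, hζ⟩ : ∃ ζ : ℝ, 0 < ζ ∧ ∀ y ∈ Z, ζ ≤ sf K a - ⟪y.1, a⟫_ℝ := by
    rcases Z.eq_empty_or_nonempty with he | hne
    · exact ⟨1, one_pos, by simp [he]⟩
    · obtain ⟨y, hy, hmin⟩ := hZc.exists_isMinOn hne
        (f := fun y : E3 × E3 => sf K a - ⟪y.1, a⟫_ℝ) (by fun_prop)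
      refine ⟨_, ?_, fun y' hy' => hmin hy'⟩
      have h1 := hK.le_sf hy.1.1 a
      rcases eq_or_lt_of_le h1 with h2 | h2
      · have h3 := inner_le_max_of_mem_segment (h.seg _ hy.1.1 h2) y.2
        have h4 : max ⟪p, y.2⟫_ℝ ⟪q, y.2⟫_ℝ + η / 2 ≤ ⟪y.1, y.2⟫_ℝ := hy.2
        linarith
      · linarith
  refine ⟨2 * R * |B| / ζ, fun t ht w hw => ?_⟩
  have hT : 0 ≤ 2 * R * |B| / ζ := by positivity
  have ht0 : 0 ≤ t := le_trans hT ht
  have htζ : 2 * R * |B| ≤ t * ζ := by rwa [div_le_iff₀ hζ0] at ht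
  have l1 := hK.le_sf h.hp (t • a + w)
  have l2 := hK.le_sf h.hq (t • a + w)
  rw [inner_add_right, real_inner_smul_right] at l1 l2
  rw [h.pa] at l1
  rw [h.qa] at l2
  have l3 : max ⟪p, w⟫_ℝ ⟪q, w⟫_ℝ ≤ sf K (t • a + w) - t * sf K a :=
    max_le (by linarith) (by linarith)
  refine abs_lt.mpr ⟨by linarith, ?_⟩
  obtain ⟨x, hx, he, -⟩ := hK.exists_sf (t • a + w)
  rw [← he, inner_add_right, real_inner_smul_right]
  by_cases hxz : (x, w) ∈ Z
  · have h1 := hζ _ hxz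
    simp only at h1
    have hb : ∀ y ∈ K, |⟪y, w⟫_ℝ| ≤ R * |B| := fun y hy =>
      le_trans (abs_real_inner_le_norm _ _)
        (mul_le_mul (hR y hy) (le_trans hw (le_abs_self B)) (norm_nonneg _) hR0)
    have h2 := abs_le.mp (hb x hx)
    have h3 := abs_le.mp (hb p h.hp)
    have h4 := le_max_left ⟪p, w⟫_ℝ ⟪q, w⟫_ℝ
    have h5 := mul_le_mul_of_nonneg_left h1 ht0
    linarith
  · have h1 : ⟪x, w⟫_ℝ < max ⟪p, w⟫_ℝ ⟪q, w⟫_ℝ + η / 2 := by
      by_contra hc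
      push Not at hc
      exact hxz ⟨⟨hx, by simpa using hw⟩, hc⟩
    have h2 := mul_le_mul_of_nonneg_left (hK.le_sf hx a) ht0
    linarith

theorem Frame.inner_pt {a b c : E3} (y : E3) (z : ℂ) :
    ⟪y, pt a b c z⟫_ℝ = z.re * ⟪y, a⟫_ℝ + z.im * ⟪y, b⟫_ℝ + ⟪y, c⟫_ℝ := by
  rw [pt, inner_add_right, inner_add_right, real_inner_smul_right, real_inner_smul_right]

theorem Frame.norm_pt_le {a b c : E3} (h : Frame a b c) (z : ℂ) :
    ‖pt a b c z‖ ≤ 1 + ‖z‖ ^ 2 / 2 := by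
  have h1 : ‖pt a b c z‖ ^ 2 = 1 + ‖z‖ ^ 2 := by
    rw [← real_inner_self_eq_norm_sq, Frame.inner_pt, h.pt_a, h.pt_b, h.pt_c, Complex.sq_norm,
      Complex.normSq_apply]
    ring
  apply (abs_le_of_sq_le_sq' _ (by positivity)).2
  rw [h1]
  nlinarith [sq_nonneg (‖z‖ ^ 2)]

theorem no_flat {K : Set E3} (hK : Body K) (hP : PropP K) {v b a p q x : E3} (hF : Frame v b a)
    (hp : p ∈ K) (hq : q ∈ K) (hx : x ∈ K) (hpa : ⟪p, a⟫_ℝ = sf K a) {l μ ν : ℝ} (hl : 0 < l)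
    (hν : ν ≠ 0) (hqp : q = p + l • v) (hxp : x = p + μ • v + ν • b) : False := by
  obtain ⟨p0, hp0, hmax⟩ := hK.comp.exists_isMaxOn hK.nonempty (f := fun x => ‖x‖) (by fun_prop)
  have hR : ∀ y ∈ K, ‖y‖ ≤ ‖p0‖ := fun y hy => hmax hy
  have hup : ∀ u, sf K u ≤ ‖p0‖ * ‖u‖ := fun u => hK.sf_le fun y hy =>
    le_trans (real_inner_le_norm _ _) (by gcongr; exact hR y hy)
  have ha1 : ‖a‖ = 1 := by
    have := hF.cc
    rw [real_inner_self_eq_norm_sq] at this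
    exact (pow_eq_one_iff_of_nonneg (norm_nonneg _) two_ne_zero).mp this
  have ha0 : a ≠ 0 := by intro h; rw [h] at ha1; simp at ha1
  have hR0 : 0 < ‖p0‖ := by
    have h1 := hK.width_pos ha0
    have h2 := hup a
    have h3 := hup (-a)
    rw [norm_neg] at h3
    rw [ha1] at h2 h3
    linarith
  have hp00 : p0 ≠ 0 := norm_pos_iff.mp hR0
  set R := ‖p0‖ with hRdef
  set n0 := R⁻¹ • p0 with hn0
  have hn1 : ‖n0‖ = 1 := norm_smul_inv_norm hp00
  let σ : E3 ≃ₗᵢ[ℝ] E3 := (ℝ ∙ (a - n0))ᗮ.reflection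
  have hσa : σ a = n0 := Submodule.reflection_sub (by rw [ha1, hn1])
  have hs := wmp hK hP σ (Submodule.reflection_reflection _) hF
  set C0 := 3 / l + (3 + 3 * |μ| / l) / |ν| with hC0
  have hν' : 0 < |ν| := abs_pos.mpr hν
  have hC00 : 0 < C0 := by positivity
  set r0 := 1 / (C0 * R) with hr0
  have hr00 : 0 < r0 := by positivity
  set δ := 1 / (2 * C0 ^ 2 * R) with hδ
  have hδ0 : 0 < δ := by positivity
  have key := hs (Metric.ball 0 r0) Metric.isOpen_ball Metric.isBounded_ball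
    (R - δ - sf K a) (-(⟪p, v⟫_ℝ + (l + μ) / 3)) (-(⟪p, b⟫_ℝ + ν / 3)) (fun z hz => by
      rw [frontier_ball _ hr00.ne'] at hz
      have hz' : ‖z‖ = r0 := by simpa using hz
      have h1 := hup (σ (pt v b a z))
      rw [σ.norm_map] at h1
      have h2 : R * ‖pt v b a z‖ ≤ R * (1 + ‖z‖ ^ 2 / 2) := by
        gcongr; exact hF.norm_pt_le z
      have e1 := hK.le_sf hp (pt v b a z)
      have e2 := hK.le_sf hq (pt v b a z)
      have e3 := hK.le_sf hx (pt v b a z)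
      rw [hqp, inner_add_left, real_inner_smul_left, real_inner_comm _ v, hF.pt_a] at e2
      rw [hxp, inner_add_left, inner_add_left, real_inner_smul_left, real_inner_smul_left,
        real_inner_comm _ v, real_inner_comm _ b, hF.pt_a, hF.pt_b] at e3
      rw [Frame.inner_pt, hpa] at e1 e2 e3
      set m := sf K (pt v b a z) - (z.re * ⟪p, v⟫_ℝ + z.im * ⟪p, b⟫_ℝ + sf K a) -
        (l * z.re + (μ * z.re + ν * z.im)) / 3 with hm
      have m1 : |l * z.re| ≤ 3 * m := abs_le.mpr ⟨by linarith, by linarith⟩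
      have m2 : |μ * z.re + ν * z.im| ≤ 3 * m := abs_le.mpr ⟨by linarith, by linarith⟩
      have m0 : 0 ≤ m := by linarith [abs_nonneg (l * z.re)]
      have m3 : |z.re| ≤ 3 / l * m := by
        rw [abs_mul, abs_of_pos hl] at m1
        rw [div_mul_eq_mul_div, le_div_iff₀ hl]
        linarith
      have m4 : |z.im| ≤ (3 + 3 * |μ| / l) / |ν| * m := by
        rw [div_mul_eq_mul_div, le_div_iff₀ hν']
        have a1 : |ν * z.im| ≤ |μ * z.re + ν * z.im| + |μ * z.re| := by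
          have := abs_sub (μ * z.re + ν * z.im) (μ * z.re)
          rwa [add_sub_cancel_left] at this
        rw [abs_mul, abs_mul] at a1
        have a2 : |μ| * |z.re| ≤ |μ| * (3 / l * m) := by gcongr
        have a3 : (3 + 3 * |μ| / l) * m = 3 * m + |μ| * (3 / l * m) := by ring
        linarith
      have m5 : r0 ≤ C0 * m := by
        have := Complex.norm_le_abs_re_add_abs_im z
        rw [hC0, add_mul]
        linarith
      have m6 : 2 * δ ≤ m := by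
        have a1 : 2 * δ = r0 / C0 := by rw [hδ, hr0]; field_simp
        rw [a1, div_le_iff₀ hC00]
        linarith
      have m7 : R * (1 + ‖z‖ ^ 2 / 2) = R + δ := by
        rw [hz', hr0, hδ]; field_simp
      simp only
      linarith) 0 (Metric.mem_ball_self hr00)
  have e0 : pt v b a 0 = a := by simp [pt]
  simp only [e0, hσa, Complex.zero_re, Complex.zero_im, mul_zero, add_zero] at key
  have h1 := hK.le_sf hp0 n0
  rw [hn0, real_inner_smul_right, real_inner_self_eq_norm_sq, ← hRdef] at h1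
  have h2 : R⁻¹ * R ^ 2 = R := by field_simp
  rw [← hn0] at h1
  linarith

theorem exists_dir {p q : E3} (hpq : p ≠ q) :
    ∃ (l : ℝ) (v : E3), 0 < l ∧ ‖v‖ = 1 ∧ q = p + l • v := by
  have h : q - p ≠ 0 := sub_ne_zero.mpr hpq.symm
  have hl : 0 < ‖q - p‖ := norm_pos_iff.mpr h
  refine ⟨‖q - p‖, ‖q - p‖⁻¹ • (q - p), hl, norm_smul_inv_norm h, ?_⟩
  rw [smul_smul, mul_inv_cancel₀ hl.ne', one_smul]; abel

theorem exists_face {K : Set E3} (hK : Body K) (hP : PropP K) {a : E3} (ha : ‖a‖ = 1) :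
    ∃ p q, IsFace K a p q := by
  have hΦc : IsCompact (K ∩ {x | ⟪x, a⟫_ℝ = sf K a}) :=
    hK.comp.inter_right (isClosed_eq (by fun_prop) continuous_const)
  have hΦn : (K ∩ {x | ⟪x, a⟫_ℝ = sf K a}).Nonempty := by
    obtain ⟨x, hx, he, -⟩ := hK.exists_sf a
    exact ⟨x, hx, he⟩
  obtain ⟨y, ⟨hp, hq⟩, hmax⟩ := (hΦc.prod hΦc).exists_isMaxOn (hΦn.prod hΦn)
    (f := fun y : E3 × E3 => ‖y.1 - y.2‖) (by fun_prop)
  obtain ⟨p, q⟩ := y
  rw [isMaxOn_iff] at hmax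
  simp only at hp hq hmax
  refine ⟨p, q, hp.1, hq.1, hp.2, hq.2, fun x hx hxa => ?_⟩
  have h1 : ‖x - p‖ ≤ ‖p - q‖ := hmax (x, p) ⟨⟨hx, hxa⟩, hp⟩
  have h2 : ‖x - q‖ ≤ ‖p - q‖ := hmax (x, q) ⟨⟨hx, hxa⟩, hq⟩
  by_cases hpq : p = q
  · rw [hpq, sub_self, norm_zero] at h1
    have : x = q := sub_eq_zero.mp (norm_le_zero_iff.mp h1)
    rw [this]; exact right_mem_segment _ _ _
  obtain ⟨l, v, hl, hv1, hqp⟩ := exists_dir hpq
  have hpa : ⟪p, a⟫_ℝ = sf K a := hp.2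
  have hqa : ⟪q, a⟫_ℝ = sf K a := hq.2
  have hva : ⟪v, a⟫_ℝ = 0 := by
    rw [hqp, inner_add_left, real_inner_smul_left, hpa] at hqa
    have : l * ⟪v, a⟫_ℝ = 0 := by linarith
    exact (mul_eq_zero.mp this).resolve_left hl.ne'
  obtain ⟨b, hF⟩ := exists_frame2 hv1 ha hva
  obtain ⟨μ, ν, hxp⟩ : ∃ μ ν : ℝ, x = p + μ • v + ν • b := by
    refine ⟨⟪x - p, v⟫_ℝ, ⟪x - p, b⟫_ℝ, ?_⟩
    have := hF.span (x - p)
    rw [inner_sub_left x p a, hxa, hpa, sub_self, zero_smul, add_zero] at this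
    rw [add_assoc, ← this]; abel
  by_cases hν : ν = 0
  · rw [hν, zero_smul, add_zero] at hxp
    have e0 : ‖p - q‖ = l := by
      have : p - q = (-l) • v := by rw [hqp, neg_smul]; abel
      rw [this, norm_smul, hv1, mul_one, Real.norm_eq_abs, abs_neg, abs_of_pos hl]
    have e1 : x - p = μ • v := by rw [hxp]; abel
    have e2 : x - q = (μ - l) • v := by rw [hxp, hqp, sub_smul]; abel
    rw [e0, e1, norm_smul, hv1, mul_one, Real.norm_eq_abs] at h1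
    rw [e0, e2, norm_smul, hv1, mul_one, Real.norm_eq_abs] at h2
    have h3 := abs_le.mp h1
    have h4 := abs_le.mp h2
    refine ⟨1 - μ / l, μ / l, ?_, div_nonneg (by linarith) hl.le, by ring, ?_⟩
    · rw [sub_nonneg, div_le_one hl]; exact h3.2
    · rw [hxp, hqp, smul_add, smul_smul, div_mul_cancel₀ _ hl.ne', sub_smul, one_smul]; abel
  · exact (no_flat hK hP hF.swap23 hp.1 hq.1 hx hpa hl hν hqp hxp).elim

end Pool.Agent.Lib.MP_947c47_gt
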