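import Pool.Agent.Lib.MP_947c47_gt.Rot

set_option autoImplicit false

namespace Pool.Agent.Lib.MP_947c47_gt

open Set Filter Topology
open scoped InnerProductSpace

theorem sausage_of_sf {K : Set E3} (hK : Body K) {p q b : E3} {ρ : ℝ} (hb : ‖b‖ = 1)
    (hpq : ⟪p, b⟫_ℝ = ⟪q, b⟫_ℝ) (h : ∀ u, sf K u = max ⟪p, u⟫_ℝ ⟪q, u⟫_ℝ + ρ * ‖u‖) :
    0 < ρ ∧ K = {x | Metric.infDist x (segment ℝ p q) ≤ ρ} := by
  have hb0 : b ≠ 0 := by intro h; rw [h] at hb; simp at hb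
  have hρ : 0 < ρ := by
    have := hK.width_pos hb0
    rw [h, h, norm_neg, hb, inner_neg_right, inner_neg_right, hpq, max_self, max_self] at this
    linarith
  refine ⟨hρ, ?_⟩
  have hS : IsCompact (segment ℝ p q) := by
    rw [segment_eq_image]
    exact isCompact_Icc.image (by fun_prop)
  have hSn : (segment ℝ p q).Nonempty := ⟨p, left_mem_segment _ _ _⟩
  ext x
  constructor
  · intro hx
    obtain ⟨s, hs, hse⟩ := exists_norm_eq_iInf_of_complete_convex hSn hS.isComplete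
      (convex_segment p q) x
    have h2 := (norm_eq_iInf_iff_real_inner_le_zero (convex_segment p q) hs).mp hse
    have h3 := h2 p (left_mem_segment _ _ _)
    have h4 := h2 q (right_mem_segment _ _ _)
    rw [inner_sub_right, real_inner_comm, real_inner_comm s] at h3 h4
    have h5 := hK.le_sf hx (x - s)
    rw [h] at h5
    have h6 : max ⟪p, x - s⟫_ℝ ⟪q, x - s⟫_ℝ ≤ ⟪s, x - s⟫_ℝ := max_le (by linarith) (by linarith)
    have h7 : ‖x - s‖ ^ 2 ≤ ρ * ‖x - s‖ := by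
      rw [← real_inner_self_eq_norm_sq, inner_sub_left]; linarith
    have h8 : ‖x - s‖ ≤ ρ := by
      by_contra hc
      push Not at hc
      nlinarith
    exact le_trans (Metric.infDist_le_dist_of_mem hs) (by rw [dist_eq_norm]; exact h8)
  · intro hx
    obtain ⟨s, hs, hse⟩ := hS.exists_infDist_eq_dist hSn x
    have h1 : ‖x - s‖ ≤ ρ := by rw [← dist_eq_norm, ← hse]; exact hx
    refine hK.mem_of_forall fun u => ?_
    rw [h]
    have h2 := inner_le_max_of_mem_segment hs u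
    have h3 : ⟪x - s, u⟫_ℝ ≤ ρ * ‖u‖ :=
      le_trans (real_inner_le_norm _ _) (by gcongr)
    rw [inner_sub_left] at h3
    linarith

theorem eq_of_lim {x y ρ : ℝ} {b w : E3} (hb : ‖b‖ = 1) (hw : ‖w‖ = 1) (hbw : ⟪b, w⟫_ℝ = 0)
    (h : ∀ η : ℝ, 0 < η → ∃ T : ℝ, ∀ t, T ≤ t → |x + ρ * (‖t • b + w‖ - t) - y| < η) : x = y := by
  by_contra hne
  have hγ : 0 < |x - y| := abs_pos.mpr (sub_ne_zero.mpr hne)
  obtain ⟨T, hT⟩ := h (|x - y| / 2) (by linarith)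
  set t := max T (2 * (|ρ| + 1) / |x - y|) with ht
  have ht1 : 2 * (|ρ| + 1) / |x - y| ≤ t := le_max_right _ _
  have ht0 : 0 < t := lt_of_lt_of_le (by positivity) ht1
  have h1 := hT t (le_max_left _ _)
  have h2 : ‖t • b + w‖ ^ 2 = t ^ 2 + 1 := by
    rw [norm_add_sq_real, norm_smul, hb, hw, real_inner_smul_left, hbw, Real.norm_eq_abs,
      mul_one, sq_abs]
    ring
  have h3 : t ≤ ‖t • b + w‖ := (abs_le_of_sq_le_sq' (by rw [h2]; linarith) (norm_nonneg _)).2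
  have h4 : ‖t • b + w‖ ≤ t + 1 / t := by
    refine (abs_le_of_sq_le_sq' ?_ (by positivity)).2
    rw [h2]
    have : (t + 1 / t) ^ 2 = t ^ 2 + 2 + (1 / t) ^ 2 := by field_simp; ring
    rw [this]
    nlinarith [sq_nonneg (1 / t)]
  have h5 : |ρ * (‖t • b + w‖ - t)| ≤ |x - y| / 2 := by
    rw [abs_mul, abs_of_nonneg (sub_nonneg.mpr h3)]
    have a1 : |ρ| * (‖t • b + w‖ - t) ≤ (|ρ| + 1) * (1 / t) :=
      mul_le_mul (by linarith) (by linarith) (by linarith) (by positivity)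
    have a2 : (|ρ| + 1) * (1 / t) ≤ |x - y| / 2 := by
      rw [div_le_iff₀ hγ] at ht1
      rw [mul_one_div, div_le_iff₀ ht0]
      linarith
    linarith
  have h6 : |x - y| ≤ |x + ρ * (‖t • b + w‖ - t) - y| + |ρ * (‖t • b + w‖ - t)| := by
    have := abs_sub (x + ρ * (‖t • b + w‖ - t) - y) (ρ * (‖t • b + w‖ - t))
    have e : x + ρ * (‖t • b + w‖ - t) - y - ρ * (‖t • b + w‖ - t) = x - y := by ring
    rwa [e] at this
  linarith

theorem max_smul_nonneg {r : ℝ} (hr : 0 ≤ r) (p q u : E3) :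
    max ⟪p, r • u⟫_ℝ ⟪q, r • u⟫_ℝ = r * max ⟪p, u⟫_ℝ ⟪q, u⟫_ℝ := by
  rw [real_inner_smul_right, real_inner_smul_right, mul_max_of_nonneg _ _ hr]

theorem plane_formula {K : Set E3} (hK : Body K) (hP : PropP K) {a p q v : E3}
    (h : IsFace K a p q) (hpq : p ≠ q) (ha : ‖a‖ = 1) (hv : ‖v‖ = 1) (hva : ⟪v, a⟫_ℝ = 0)
    {u : E3} (hu : ⟪u, a⟫_ℝ = 0) :
    sf K u = max ⟪p, u⟫_ℝ ⟪q, u⟫_ℝ + (sf K v - max ⟪p, v⟫_ℝ ⟪q, v⟫_ℝ) * ‖u‖ := by
  have := rotC hK hP h hpq ha (u := u) (u' := ‖u‖ • v)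
    (by rw [real_inner_smul_left, hva, hu, mul_zero]) (by rw [norm_smul, hv]; simp)
  rw [hK.sf_smul (norm_nonneg _), max_smul_nonneg (norm_nonneg _)] at this
  linarith

theorem segment_case {K : Set E3} (hK : Body K) (hP : PropP K) {a p q : E3}
    (h : IsFace K a p q) (hpq : p ≠ q) (ha : ‖a‖ = 1) :
    ∃ p q : E3, ∃ r : ℝ, 0 < r ∧ K = {x | Metric.infDist x (segment ℝ p q) ≤ r} := by
  obtain ⟨l, v, hl, hv, hq⟩ := exists_dir hpq
  have hva := h.inner_dir hl hq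
  obtain ⟨b, hF⟩ := exists_frame2 hv ha hva
  have hb := norm_one_of_inner hF.cc
  set ρ := sf K v - max ⟪p, v⟫_ℝ ⟪q, v⟫_ℝ with hρ
  have hA : ∀ u : E3, ⟪u, a⟫_ℝ = 0 → sf K u = max ⟪p, u⟫_ℝ ⟪q, u⟫_ℝ + ρ * ‖u‖ :=
    fun u hu => plane_formula hK hP h hpq ha hv hva hu
  have hqi : ∀ x : E3, ⟪q, x⟫_ℝ = ⟪p, x⟫_ℝ + l * ⟪v, x⟫_ℝ := fun x => by
    rw [hq, inner_add_left, real_inner_smul_left]
  have hpqb : ⟪p, b⟫_ℝ = ⟪q, b⟫_ℝ := by rw [hqi, hF.ac]; ring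
  obtain ⟨p', q', h'⟩ := exists_face hK hP hb
  have hlim : ∀ w : E3, ‖w‖ = 1 → ⟪b, w⟫_ℝ = 0 → ⟪w, a⟫_ℝ = 0 →
      max ⟪p, w⟫_ℝ ⟪q, w⟫_ℝ = max ⟪p', w⟫_ℝ ⟪q', w⟫_ℝ := by
    intro w hw hbw hwa
    refine eq_of_lim (ρ := ρ) hb hw hbw fun η hη => ?_
    obtain ⟨T, hT⟩ := face_limit hK h' 1 η hη
    refine ⟨T, fun t ht => ?_⟩
    have h1 := hT t ht w hw.le
    rw [hA _ (by rw [inner_add_left, real_inner_smul_left, hF.cb, hwa]; ring), hA b hF.cb, hb,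
      inner_add_right, inner_add_right, real_inner_smul_right, real_inner_smul_right, ← hpqb,
      max_self, max_add_add_left] at h1
    have e : max ⟪p, w⟫_ℝ ⟪q, w⟫_ℝ + ρ * (‖t • b + w‖ - t) - max ⟪p', w⟫_ℝ ⟪q', w⟫_ℝ =
        t * ⟪p, b⟫_ℝ + max ⟪p, w⟫_ℝ ⟪q, w⟫_ℝ + ρ * ‖t • b + w‖ - t * (⟪p, b⟫_ℝ + ρ * 1) -
          max ⟪p', w⟫_ℝ ⟪q', w⟫_ℝ := by ring
    rw [e]; exact h1
  have hv1 := hlim v hv hF.ca hva
  have hv2 := hlim (-v) (by rw [norm_neg, hv]) (by rw [inner_neg_right, hF.ca, neg_zero])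
    (by rw [inner_neg_left, hva, neg_zero])
  have hpq' : p' ≠ q' := by
    intro he
    rw [he, max_self, hqi, hF.aa, max_eq_right (by linarith)] at hv1
    rw [he, max_self, hqi] at hv2
    simp only [inner_neg_right, hF.aa] at hv2
    rw [max_eq_left (by linarith)] at hv2
    linarith
  have hB : ∀ u : E3, ⟪u, b⟫_ℝ = 0 → sf K u = max ⟪p', u⟫_ℝ ⟪q', u⟫_ℝ + ρ * ‖u‖ := by
    intro u hu
    rw [plane_formula hK hP h' hpq' hb hv hF.ac hu, ← hv1]
  have hperp : ⟪p', a⟫_ℝ = ⟪q', a⟫_ℝ := by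
    by_contra hne
    obtain ⟨y, hy⟩ : ∃ y : E3, ∀ᶠ ε in 𝓝 (0 : ℝ),
        max ⟪p', a + ε • v⟫_ℝ ⟪q', a + ε • v⟫_ℝ = ⟪y, a + ε • v⟫_ℝ := by
      have c1 : Continuous (fun ε : ℝ => ⟪p', a + ε • v⟫_ℝ) := by fun_prop
      have c2 : Continuous (fun ε : ℝ => ⟪q', a + ε • v⟫_ℝ) := by fun_prop
      rcases lt_or_gt_of_ne hne with hlt | hlt
      · refine ⟨q', ?_⟩
        filter_upwards [c1.continuousAt.eventually_lt c2.continuousAt (by simpa using hlt)]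
          with ε hε
        exact max_eq_right hε.le
      · refine ⟨p', ?_⟩
        filter_upwards [c2.continuousAt.eventually_lt c1.continuousAt (by simpa using hlt)]
          with ε hε
        exact max_eq_left hε.le
    obtain ⟨r, hr0, hr⟩ := Metric.eventually_nhds_iff.mp hy
    set ε := min (r / 2) (l / (2 * (|ρ| + 1))) with hε
    have hε0 : 0 < ε := lt_min (by linarith) (by positivity)
    have hε1 : ε ≤ r / 2 := min_le_left _ _
    have hε2 : ε ≤ l / (2 * (|ρ| + 1)) := min_le_right _ _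
    have m0 := hr (y := 0) (by simpa using hr0)
    have m1 := hr (y := ε) (by rw [Real.dist_eq, sub_zero, abs_of_pos hε0]; linarith)
    have m2 := hr (y := -ε) (by rw [Real.dist_eq, sub_zero, abs_neg, abs_of_pos hε0]; linarith)
    have hperp : ∀ s : ℝ, ⟪a + s • v, b⟫_ℝ = 0 := fun s => by
      rw [inner_add_left, real_inner_smul_left, hF.bc, hF.ac]; ring
    have hnorm : ∀ s : ℝ, 1 ≤ ‖a + s • v‖ ∧ ‖a + s • v‖ ≤ 1 + s ^ 2 / 2 := fun s => by
      have e : ‖a + s • v‖ ^ 2 = 1 + s ^ 2 := by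
        rw [norm_add_sq_real, norm_smul, ha, hv, real_inner_smul_right, hF.ba, Real.norm_eq_abs,
          mul_one, sq_abs]
        ring
      constructor
      · exact (abs_le_of_sq_le_sq' (by rw [e]; nlinarith [sq_nonneg s]) (norm_nonneg _)).2
      · refine (abs_le_of_sq_le_sq' ?_ (by positivity)).2
        rw [e]; nlinarith [sq_nonneg (s ^ 2)]
    have f0 := hB _ (hperp 0)
    have f1 := hB _ (hperp ε)
    have f2 := hB _ (hperp (-ε))
    rw [m0] at f0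
    rw [m1] at f1
    rw [m2] at f2
    rw [zero_smul, add_zero, ha] at f0
    have g1 := hK.le_sf h.hq (a + ε • v)
    have g2 := hK.le_sf h.hp (a + (-ε) • v)
    rw [inner_add_right, real_inner_smul_right] at f1 f2 g1 g2
    rw [h.qa, hqi, hF.aa] at g1
    rw [h.pa] at g2
    have n1 := hnorm ε
    have n2 := hnorm (-ε)
    rw [neg_sq] at n2
    have k1 : ρ * (‖a + ε • v‖ - 1) ≤ |ρ| * (ε ^ 2 / 2) :=
      le_trans (mul_le_mul_of_nonneg_right (le_abs_self ρ) (by linarith [n1.1]))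
        (mul_le_mul_of_nonneg_left (by linarith [n1.2]) (abs_nonneg ρ))
    have k2 : ρ * (‖a + (-ε) • v‖ - 1) ≤ |ρ| * (ε ^ 2 / 2) :=
      le_trans (mul_le_mul_of_nonneg_right (le_abs_self ρ) (by linarith [n2.1]))
        (mul_le_mul_of_nonneg_left (by linarith [n2.2]) (abs_nonneg ρ))
    have k3 : ε * l ≤ |ρ| * ε ^ 2 := by linarith
    have k4 : l ≤ |ρ| * ε := by
      have : ε * l ≤ ε * (|ρ| * ε) := by linarith
      exact le_of_mul_le_mul_left this hε0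
    have k5 : ε * (2 * (|ρ| + 1)) ≤ l := by rwa [le_div_iff₀ (by positivity)] at hε2
    nlinarith [abs_nonneg ρ]
  have hpqa : ⟪p, a⟫_ℝ = ⟪q, a⟫_ℝ := by rw [h.pa, h.qa]
  set d := ⟪p', a⟫_ℝ - ⟪p, a⟫_ℝ with hd
  refine ⟨p + d • a, q + d • a, ρ, sausage_of_sf hK hb
    (by rw [inner_add_left, inner_add_left, hpqb]) fun u => ?_⟩
  have hz : 0 ≤ ‖u‖ ^ 2 - ⟪u, a⟫_ℝ ^ 2 := by
    have := abs_real_inner_le_norm u a
    rw [ha, mul_one] at this
    have := sq_le_sq' (by linarith [abs_nonneg ⟪u, a⟫_ℝ, norm_nonneg u]) this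
    rw [sq_abs] at this
    linarith
  set z := Real.sqrt (‖u‖ ^ 2 - ⟪u, a⟫_ℝ ^ 2) with hzdef
  have hz0 : 0 ≤ z := Real.sqrt_nonneg _
  have hz2 : z ^ 2 = ‖u‖ ^ 2 - ⟪u, a⟫_ℝ ^ 2 := Real.sq_sqrt hz
  obtain ⟨x, hx⟩ : ∃ x, x = ⟪u, a⟫_ℝ := ⟨_, rfl⟩
  have hn : ‖u‖ = ‖x • a + z • v‖ := by
    apply (sq_eq_sq₀ (norm_nonneg _) (norm_nonneg _)).mp
    rw [norm_add_sq_real, norm_smul, norm_smul, ha, hv, real_inner_smul_left,
      real_inner_smul_right, hF.ba, Real.norm_eq_abs, Real.norm_eq_abs, mul_one, mul_one, sq_abs,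
      sq_abs, hz2, hx]
    ring
  have r1 := rotC hK hP h hpq ha (u := u) (u' := x • a + z • v)
    (by rw [inner_add_left, real_inner_smul_left, real_inner_smul_left, hF.bb, hva, hx]; ring) hn
  have r2 := hB (x • a + z • v)
    (by rw [inner_add_left, real_inner_smul_left, real_inner_smul_left, hF.bc, hF.ac]; ring)
  rw [← hn] at r2
  rw [r2] at r1
  simp only [inner_add_right, real_inner_smul_right] at r1
  rw [← hperp, ← hpqa, max_add_add_left, max_add_add_left, ← mul_max_of_nonneg _ _ hz0,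
    ← mul_max_of_nonneg _ _ hz0, ← hv1] at r1
  simp only [inner_add_left, real_inner_smul_left]
  rw [max_add_add_right, real_inner_comm u a, ← hx]
  linarith

theorem reflect_formula {K : Set E3} (hK : Body K) (hP : PropP K)
    (hs : ∀ a : E3, ‖a‖ = 1 → ∃ p, IsFace K a p p) {e : E3} (he : ‖e‖ = 1) :
    ∃ k : ℝ, ∀ u, sf K u - sf K (rf e u) = k * ⟪u, e⟫_ℝ := by
  obtain ⟨n, τ, hF0⟩ := exists_frame1 he
  have hF : Frame n τ e := hF0.swap12.swap23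
  obtain ⟨M, hM⟩ := sad_bdd hK n τ e
  have hr : Rad (sad K n τ e) := by
    intro ω hω
    have hm : (0 : E3) ≠ ω.re • n + ω.im • τ := by
      intro h
      apply hω
      have h1 := congrArg (fun x => ⟪x, n⟫_ℝ) h
      have h2 := congrArg (fun x => ⟪x, τ⟫_ℝ) h
      simp only [inner_zero_left, inner_add_left, real_inner_smul_left, hF.aa, hF.ab, hF.ba,
        hF.bb] at h1 h2
      apply Complex.ext
      · simp; linarith
      · simp; linarith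
    obtain ⟨m, a, hm0, ha, hma⟩ := exists_dir hm
    rw [zero_add] at hma
    obtain ⟨p, hp⟩ := hs a ha
    refine ⟨2 * ⟪p, e⟫_ℝ, fun B η hη => ?_⟩
    obtain ⟨T, hT⟩ := face_limit hK hp (B + B + 1) (η / 2) (by linarith)
    refine ⟨T / m, fun t ht w hw => ?_⟩
    have ht' : T ≤ t * m := by rwa [div_le_iff₀ hm0] at ht
    have hpt : ∀ c : E3, pt n τ c (t * ω + w) = (t * m) • a + (w.re • n + w.im • τ + c) := by
      intro c
      rw [mul_smul, ← hma]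
      simp only [pt, Complex.add_re, Complex.add_im, Complex.mul_re, Complex.mul_im,
        Complex.ofReal_re, Complex.ofReal_im]
      module
    have hb : ∀ c : E3, ‖c‖ = 1 → ‖w.re • n + w.im • τ + c‖ ≤ B + B + 1 := by
      intro c hc
      refine le_trans (norm_add_le _ _) (add_le_add (le_trans (norm_add_le _ _) ?_) hc.le)
      rw [norm_smul, norm_smul, norm_one_of_inner hF.aa, norm_one_of_inner hF.bb, mul_one, mul_one]
      exact add_le_add (le_trans (Complex.abs_re_le_norm w) hw)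
        (le_trans (Complex.abs_im_le_norm w) hw)
    have h1 := abs_lt.mp (hT _ ht' _ (hb e he))
    have h2 := abs_lt.mp (hT _ ht' _ (hb (-e) (by rw [norm_neg, he])))
    rw [max_self, inner_add_right] at h1 h2
    rw [inner_neg_right] at h2
    rw [sad, hpt, hpt]
    exact abs_lt.mpr ⟨by linarith, by linarith⟩
  have hc := const_of_rad (sad_cont hK n τ e) (sad_sub hK hP hF) (sad_sub' hK hP hF) hM hr
  have hpos : ∀ u : E3, 0 < ⟪u, e⟫_ℝ → sf K u - sf K (rf e u) = sad K n τ e 0 * ⟪u, e⟫_ℝ := by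
    intro u hu
    have hch : u = ⟪u, e⟫_ℝ • pt n τ e ⟨⟪u, n⟫_ℝ / ⟪u, e⟫_ℝ, ⟪u, τ⟫_ℝ / ⟪u, e⟫_ℝ⟩ := by
      conv_lhs => rw [hF.span u]
      simp only [pt, smul_add, smul_smul]
      rw [mul_div_cancel₀ _ hu.ne', mul_div_cancel₀ _ hu.ne']
    rw [hc 0 ⟨⟪u, n⟫_ℝ / ⟪u, e⟫_ℝ, ⟪u, τ⟫_ℝ / ⟪u, e⟫_ℝ⟩, sad]
    conv_lhs => rw [hch]
    rw [map_smul, hF.rf_pt, hK.sf_smul hu.le, hK.sf_smul hu.le]
    ring
  refine ⟨sad K n τ e 0, fun u => ?_⟩
  rcases lt_trichotomy 0 ⟪u, e⟫_ℝ with h0 | h0 | h0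
  · exact hpos u h0
  · rw [rf_apply he, ← h0]; simp
  · have h1 : ⟪rf e u, e⟫_ℝ = -⟪u, e⟫_ℝ := by
      rw [rf_apply he, inner_sub_left, real_inner_smul_left, hF.cc]; ring
    have h2 := hpos (rf e u) (by rw [h1]; linarith)
    rw [rf_rf, h1] at h2
    linarith

theorem strict_case {K : Set E3} (hK : Body K) (hP : PropP K)
    (hs : ∀ a : E3, ‖a‖ = 1 → ∃ p, IsFace K a p p) :
    ∃ p q : E3, ∃ r : ℝ, 0 < r ∧ K = {x | Metric.infDist x (segment ℝ p q) ≤ r} := by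
  have hF := frame_of_basis (EuclideanSpace.basisFun (Fin 3) ℝ)
  generalize (EuclideanSpace.basisFun (Fin 3) ℝ) 0 = e1 at hF
  generalize (EuclideanSpace.basisFun (Fin 3) ℝ) 1 = e2 at hF
  generalize (EuclideanSpace.basisFun (Fin 3) ℝ) 2 = e3 at hF
  have n1 := norm_one_of_inner hF.aa
  have n2 := norm_one_of_inner hF.bb
  have n3 := norm_one_of_inner hF.cc
  obtain ⟨k1, h1⟩ := reflect_formula hK hP hs n1
  obtain ⟨k2, h2⟩ := reflect_formula hK hP hs n2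
  obtain ⟨k3, h3⟩ := reflect_formula hK hP hs n3
  obtain ⟨c, hc⟩ : ∃ c : E3, c = (k1 / 2) • e1 + (k2 / 2) • e2 + (k3 / 2) • e3 := ⟨_, rfl⟩
  have c1 : ⟪c, e1⟫_ℝ = k1 / 2 := by
    simp only [hc, inner_add_left, real_inner_smul_left, hF.aa, hF.ba, hF.ca]; ring
  have c2 : ⟪c, e2⟫_ℝ = k2 / 2 := by
    simp only [hc, inner_add_left, real_inner_smul_left, hF.bb, hF.ab, hF.cb]; ring
  have c3 : ⟪c, e3⟫_ℝ = k3 / 2 := by
    simp only [hc, inner_add_left, real_inner_smul_left, hF.cc, hF.ac, hF.bc]; ring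
  have hinv : ∀ (e : E3) (k : ℝ), ‖e‖ = 1 → (∀ u, sf K u - sf K (rf e u) = k * ⟪u, e⟫_ℝ) →
      ∀ u, sf K (rf e u) - ⟪c, rf e u⟫_ℝ =
        sf K u - ⟪c, u⟫_ℝ - (k - 2 * ⟪c, e⟫_ℝ) * ⟪u, e⟫_ℝ := by
    intro e k he h u
    have := h u
    have e' : ⟪c, rf e u⟫_ℝ = ⟪c, u⟫_ℝ - 2 * ⟪u, e⟫_ℝ * ⟪c, e⟫_ℝ := by
      rw [rf_apply he, inner_sub_right, real_inner_smul_right]
    rw [e']; linarith
  have heven : ∀ u, sf K (-u) - ⟪c, -u⟫_ℝ = sf K u - ⟪c, u⟫_ℝ := by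
    intro u
    have e : rf e1 (rf e2 (rf e3 u)) = -u := by
      rw [rf_apply n1, rf_apply n2, rf_apply n3]
      simp only [inner_sub_left, real_inner_smul_left, hF.ba, hF.ca, hF.cb]
      conv_rhs => rw [hF.span u]
      conv_lhs => enter [1, 1, 1]; rw [hF.span u]
      module
    rw [← e, hinv e1 k1 n1 h1, hinv e2 k2 n2 h2, hinv e3 k3 n3 h3, c1, c2, c3]
    ring
  have hrf : ∀ e : E3, ‖e‖ = 1 → ∀ u, sf K (rf e u) - ⟪c, rf e u⟫_ℝ = sf K u - ⟪c, u⟫_ℝ := by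
    intro e he u
    obtain ⟨k, hk⟩ := reflect_formula hK hP hs he
    have a1 := hinv e k he hk e
    have a2 : rf e e = -e := by
      rw [rf_apply he, real_inner_self_eq_norm_sq, he]; module
    rw [a2, heven, real_inner_self_eq_norm_sq, he] at a1
    have a3 : k - 2 * ⟪c, e⟫_ℝ = 0 := by linarith
    rw [hinv e k he hk u, a3]; ring
  have hsame : ∀ u u' : E3, ‖u‖ = ‖u'‖ → sf K u - ⟪c, u⟫_ℝ = sf K u' - ⟪c, u'⟫_ℝ := by
    intro u u' hn
    by_cases huu : u' = u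
    · rw [huu]
    obtain ⟨m, e, hm, he, hue⟩ := exists_dir huu
    have a1 : rf e u = u' := by
      rw [rf_apply he]
      have a2 : u' = u - m • e := by rw [hue]; abel
      have a3 : ‖u'‖ ^ 2 = ‖u‖ ^ 2 - 2 * (m * ⟪u, e⟫_ℝ) + m ^ 2 := by
        rw [a2, norm_sub_sq_real, real_inner_smul_right, norm_smul, he, mul_one,
          Real.norm_eq_abs, sq_abs]
      rw [← hn] at a3
      have a4 : m * (2 * ⟪u, e⟫_ℝ) = m * m := by linarith
      rw [mul_left_cancel₀ hm.ne' a4, a2]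
    rw [← a1, hrf e he u]
  refine ⟨c, c, sf K e1 - ⟪c, e1⟫_ℝ, sausage_of_sf hK n1 rfl fun u => ?_⟩
  have := hsame u (‖u‖ • e1) (by rw [norm_smul, n1]; simp)
  rw [hK.sf_smul (norm_nonneg _), real_inner_smul_right] at this
  rw [max_self]
  linarith

theorem sausage {K : Set E3} (hK : Body K) (hP : PropP K) :
    ∃ p q : E3, ∃ r : ℝ, 0 < r ∧ K = {x | Metric.infDist x (segment ℝ p q) ≤ r} := by
  by_cases hs : ∀ a : E3, ‖a‖ = 1 → ∃ p, IsFace K a p p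
  · exact strict_case hK hP hs
  · push Not at hs
    obtain ⟨a, ha, hs⟩ := hs
    obtain ⟨p, q, h⟩ := exists_face hK hP ha
    refine segment_case hK hP h (fun hpq => ?_) ha
    subst hpq
    exact hs p h

end Pool.Agent.Lib.MP_947c47_gt
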