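import Pool.Agent.Lib.MP_947c47_gt.Main

set_option autoImplicit false

open scoped Pointwise

namespace Pool.Agent.Results.MP_947c47_gt.Sausage

/-- If the surface of a convex body in 3-space meets each congruent copy of itself in an empty or
connected set, then the body is the Minkowski sum of a segment (possibly a point) and a ball of
positive radius, and its surface is the boundary of that sum. -/
theorem result (K : Set (EuclideanSpace ℝ (Fin 3))) (hconv : Convex ℝ K) (hcomp : IsCompact K)
    (hint : (interior K).Nonempty)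
    (hP : ∀ g : EuclideanSpace ℝ (Fin 3) → EuclideanSpace ℝ (Fin 3), Isometry g →
      (frontier K ∩ g '' frontier K).Nonempty → IsConnected (frontier K ∩ g '' frontier K)) :
    ∃ (a b : EuclideanSpace ℝ (Fin 3)) (r : ℝ), 0 < r ∧
      K = segment ℝ a b + r • Metric.closedBall (0 : EuclideanSpace ℝ (Fin 3)) 1 ∧
      frontier K =
        frontier (segment ℝ a b + r • Metric.closedBall (0 : EuclideanSpace ℝ (Fin 3)) 1) := by
  obtain ⟨a, b, r, hr, hK⟩ := Pool.Agent.Lib.MP_947c47_gt.sausage ⟨hconv, hcomp, hint⟩
    (fun f => (Set.eq_empty_or_nonempty _).imp_right (hP f f.isometry))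
  have hS : IsCompact (segment ℝ a b) := by
    rw [segment_eq_image]
    exact isCompact_Icc.image (by fun_prop)
  have e : K = segment ℝ a b + r • Metric.closedBall (0 : EuclideanSpace ℝ (Fin 3)) 1 := by
    rw [hK, smul_unitClosedBall_of_nonneg hr.le]
    ext x
    constructor
    · intro hx
      obtain ⟨y, hy, hxy⟩ := hS.exists_infDist_eq_dist ⟨a, left_mem_segment ℝ a b⟩ x
      refine ⟨y, hy, x - y, ?_, add_sub_cancel y x⟩
      rw [mem_closedBall_zero_iff, ← dist_eq_norm, ← hxy]
      exact hx
    · rintro ⟨y, hy, z, hz, rfl⟩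
      refine le_trans (Metric.infDist_le_dist_of_mem hy) ?_
      rw [dist_eq_norm, add_sub_cancel_left]
      exact mem_closedBall_zero_iff.1 hz
  exact ⟨a, b, r, hr, e, congrArg frontier e⟩

end Pool.Agent.Results.MP_947c47_gt.Sausage
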