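import Pool.Agent.Lib.MP_947c47_gt.Const

set_option autoImplicit false

namespace Pool.Agent.Lib.MP_947c47_gt

open Set Filter Topology
open scoped InnerProductSpace

abbrev E3 := EuclideanSpace ℝ (Fin 3)

/-- Support function. -/
noncomputable def sf (K : Set E3) (u : E3) : ℝ := sSup ((fun x => ⟪x, u⟫_ℝ) '' K)

/-- Convex body. -/
structure Body (K : Set E3) : Prop where
  conv : Convex ℝ K
  comp : IsCompact K
  int : (interior K).Nonempty

theorem Body.nonempty {K : Set E3} (hK : Body K) : K.Nonempty :=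
  hK.int.mono interior_subset

theorem Body.exists_sf {K : Set E3} (hK : Body K) (u : E3) :
    ∃ x ∈ K, ⟪x, u⟫_ℝ = sf K u ∧ ∀ y ∈ K, ⟪y, u⟫_ℝ ≤ sf K u := by
  obtain ⟨x, hx, hmax⟩ := hK.comp.exists_isMaxOn hK.nonempty
    (f := fun x => ⟪x, u⟫_ℝ) (by fun_prop)
  have hg : IsGreatest ((fun x => ⟪x, u⟫_ℝ) '' K) ⟪x, u⟫_ℝ :=
    ⟨⟨x, hx, rfl⟩, by rintro _ ⟨y, hy, rfl⟩; exact hmax hy⟩
  have : sf K u = ⟪x, u⟫_ℝ := hg.csSup_eq
  exact ⟨x, hx, this.symm, fun y hy => this ▸ hmax hy⟩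

theorem Body.le_sf {K : Set E3} (hK : Body K) {x : E3} (hx : x ∈ K) (u : E3) :
    ⟪x, u⟫_ℝ ≤ sf K u := by
  obtain ⟨-, -, -, h⟩ := hK.exists_sf u
  exact h x hx

theorem Body.sf_le {K : Set E3} (hK : Body K) {u : E3} {c : ℝ} (h : ∀ x ∈ K, ⟪x, u⟫_ℝ ≤ c) :
    sf K u ≤ c := by
  obtain ⟨x, hx, he, -⟩ := hK.exists_sf u
  exact he ▸ h x hx

theorem Body.sf_smul {K : Set E3} (hK : Body K) {r : ℝ} (hr : 0 ≤ r) (u : E3) :
    sf K (r • u) = r * sf K u := by
  apply le_antisymm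
  · refine hK.sf_le fun x hx => ?_
    rw [real_inner_smul_right]
    exact mul_le_mul_of_nonneg_left (hK.le_sf hx u) hr
  · obtain ⟨x, hx, he, -⟩ := hK.exists_sf u
    rw [← he, ← real_inner_smul_right]
    exact hK.le_sf hx _

theorem Body.sf_zero {K : Set E3} (hK : Body K) : sf K 0 = 0 := by
  have := hK.sf_smul le_rfl (0 : E3)
  simpa using this

theorem Body.sf_add_le {K : Set E3} (hK : Body K) (u w : E3) :
    sf K (u + w) ≤ sf K u + sf K w := by
  refine hK.sf_le fun x hx => ?_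
  rw [inner_add_right]
  exact add_le_add (hK.le_sf hx u) (hK.le_sf hx w)

theorem Body.exists_bound {K : Set E3} (hK : Body K) : ∃ R, 0 ≤ R ∧ ∀ x ∈ K, ‖x‖ ≤ R := by
  obtain ⟨R, hR⟩ := isBounded_iff_forall_norm_le.mp hK.comp.isBounded
  obtain ⟨x, hx⟩ := hK.nonempty
  exact ⟨R, le_trans (norm_nonneg _) (hR x hx), hR⟩

theorem Body.sf_lip {K : Set E3} (hK : Body K) {R : ℝ} (hR : ∀ x ∈ K, ‖x‖ ≤ R) (u w : E3) :
    sf K u - sf K w ≤ R * ‖u - w‖ := by
  obtain ⟨x, hx, he, -⟩ := hK.exists_sf u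
  have h1 := hK.le_sf hx w
  have h2 : ⟪x, u - w⟫_ℝ ≤ ‖x‖ * ‖u - w‖ := real_inner_le_norm _ _
  rw [inner_sub_right] at h2
  have h3 : ‖x‖ * ‖u - w‖ ≤ R * ‖u - w‖ := by gcongr; exact hR x hx
  linarith

theorem Body.abs_sf_sub {K : Set E3} (hK : Body K) {R : ℝ} (hR : ∀ x ∈ K, ‖x‖ ≤ R) (u w : E3) :
    |sf K u - sf K w| ≤ R * ‖u - w‖ := by
  refine abs_le.mpr ⟨?_, hK.sf_lip hR u w⟩
  have := hK.sf_lip hR w u
  rw [norm_sub_rev] at this
  linarith

theorem Body.continuous_sf {K : Set E3} (hK : Body K) : Continuous (sf K) := by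
  obtain ⟨R, hR0, hR⟩ := hK.exists_bound
  refine (LipschitzWith.of_dist_le_mul (K := ⟨R, hR0⟩) fun u w => ?_).continuous
  rw [Real.dist_eq, dist_eq_norm]
  exact hK.abs_sf_sub hR u w

theorem Body.mem_of_forall {K : Set E3} (hK : Body K) {x : E3} (h : ∀ u, ⟪x, u⟫_ℝ ≤ sf K u) :
    x ∈ K := by
  by_contra hx
  obtain ⟨f, c, h1, h2⟩ := geometric_hahn_banach_closed_point hK.conv hK.comp.isClosed hx
  set u := (InnerProductSpace.toDual ℝ E3).symm f with hu
  have hf : ∀ y, ⟪y, u⟫_ℝ = f y := fun y => by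
    rw [real_inner_comm, hu, InnerProductSpace.toDual_symm_apply]
  have h3 : sf K u ≤ c := hK.sf_le fun y hy => by rw [hf]; exact (h1 y hy).le
  have h4 := h u
  rw [hf] at h4
  linarith

theorem Body.exists_normal {K : Set E3} (hK : Body K) {x : E3} (hx : x ∈ frontier K) :
    ∃ u : E3, ‖u‖ = 1 ∧ ⟪x, u⟫_ℝ = sf K u := by
  obtain ⟨f, hf0, hf1⟩ := geometric_hahn_banach_of_nonempty_interior_point hK.conv hx.2 hK.int
  set u := (InnerProductSpace.toDual ℝ E3).symm f with hu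
  have hf : ∀ y, ⟪y, u⟫_ℝ = f y := fun y => by
    rw [real_inner_comm, hu, InnerProductSpace.toDual_symm_apply]
  have hu0 : u ≠ 0 := by
    intro h
    apply hf0
    ext y
    rw [← hf, h]; simp
  have hxK : x ∈ K := hK.comp.isClosed.frontier_subset hx
  have h1 : ⟪x, u⟫_ℝ = sf K u :=
    le_antisymm (hK.le_sf hxK u) (hK.sf_le fun y hy => by rw [hf, hf]; exact hf1 y hy)
  refine ⟨‖u‖⁻¹ • u, norm_smul_inv_norm hu0, ?_⟩
  rw [real_inner_smul_right, hK.sf_smul (by positivity), h1]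

theorem Body.mem_frontier {K : Set E3} (hK : Body K) {x u : E3} (hx : x ∈ K) (hu : u ≠ 0)
    (h : ⟪x, u⟫_ℝ = sf K u) : x ∈ frontier K := by
  refine ⟨subset_closure hx, fun hi => ?_⟩
  have hc : Continuous (fun r : ℝ => x + r • u) := by fun_prop
  have h1 : ∀ᶠ r in 𝓝 (0 : ℝ), x + r • u ∈ K :=
    hc.continuousAt.eventually (by simpa using mem_interior_iff_mem_nhds.mp hi)
  obtain ⟨r, hr1, hr2⟩ := ((h1.filter_mono nhdsWithin_le_nhds).and
    (self_mem_nhdsWithin (s := Ioi (0 : ℝ)))).exists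
  have h2 := hK.le_sf hr1 u
  rw [inner_add_left, real_inner_smul_left, h] at h2
  have h3 : 0 < ⟪u, u⟫_ℝ := real_inner_self_pos.mpr hu
  have h4 : 0 < r * ⟪u, u⟫_ℝ := mul_pos hr2 h3
  linarith

theorem Body.width_pos {K : Set E3} (hK : Body K) {u : E3} (hu : u ≠ 0) :
    0 < sf K u + sf K (-u) := by
  obtain ⟨x, hx⟩ := hK.int
  have hxK : x ∈ K := interior_subset hx
  have h1 := hK.le_sf hxK u
  have h2 := hK.le_sf hxK (-u)
  rw [inner_neg_right] at h2
  rcases eq_or_lt_of_le h1 with h | h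
  · exact absurd hx (hK.mem_frontier hxK hu h).2
  · linarith

theorem Body.isCompact_normals {K : Set E3} (hK : Body K) {A : Set E3} (hA : IsClosed A) :
    IsCompact {p : E3 × E3 | p.1 ∈ K ∧ ‖p.2‖ = 1 ∧ p.2 ∈ A ∧ ⟪p.1, p.2⟫_ℝ = sf K p.2} := by
  have h1 : IsCompact (K ×ˢ Metric.sphere (0 : E3) 1) := hK.comp.prod (isCompact_sphere _ _)
  have h2 : IsClosed {p : E3 × E3 | p.2 ∈ A ∧ ⟪p.1, p.2⟫_ℝ = sf K p.2} := by
    have := hK.continuous_sf
    exact (hA.preimage continuous_snd).inter (isClosed_eq (by fun_prop) (by fun_prop))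
  have h3 := h1.inter_right h2
  have e : {p : E3 × E3 | p.1 ∈ K ∧ ‖p.2‖ = 1 ∧ p.2 ∈ A ∧ ⟪p.1, p.2⟫_ℝ = sf K p.2} =
      K ×ˢ Metric.sphere (0 : E3) 1 ∩ {p : E3 × E3 | p.2 ∈ A ∧ ⟪p.1, p.2⟫_ℝ = sf K p.2} := by
    ext p; simp [and_assoc]
  rw [e]; exact h3

/-- If the two boundaries meet in a connected set and the second body touches the first from
inside over an open cone of normals, with strict inequality on the boundary of the cone, then
the second body lies in the first. -/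
theorem core {K K' : Set E3} (hK : Body K) (hK' : Body K')
    (hX : IsPreconnected (frontier K ∩ frontier K')) (hF : IsPreconnected (frontier K'))
    {O : Set E3} (hO : IsOpen O) (hcone : ∀ u ∈ O, ∀ r : ℝ, 0 < r → r • u ∈ O)
    (hle : ∀ u ∈ O, sf K' u ≤ sf K u) {u0 : E3} (hu0 : u0 ∈ O) (hu00 : u0 ≠ 0)
    (heq : sf K' u0 = sf K u0) (hlt : ∀ u ∈ frontier O, u ≠ 0 → sf K' u < sf K u) (u : E3) :
    sf K' u ≤ sf K u := by
  set Good := Prod.fst '' {p : E3 × E3 | p.1 ∈ K ∧ ‖p.2‖ = 1 ∧ p.2 ∈ closure O ∧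
    ⟪p.1, p.2⟫_ℝ = sf K p.2} with hGood
  set Bad := Prod.fst '' {p : E3 × E3 | p.1 ∈ K ∧ ‖p.2‖ = 1 ∧ p.2 ∈ Oᶜ ∧
    ⟪p.1, p.2⟫_ℝ = sf K p.2} with hBad
  have hGc : IsClosed Good :=
    ((hK.isCompact_normals isClosed_closure).image continuous_fst).isClosed
  have hBc : IsClosed Bad :=
    ((hK.isCompact_normals hO.isClosed_compl).image continuous_fst).isClosed
  have hdis : ∀ x ∈ K', x ∈ Good → x ∈ Bad → False := by
    rintro x hx' ⟨⟨x1, v⟩, ⟨hx, hv1, hv2, hv3⟩, rfl⟩ ⟨⟨x2, w⟩, ⟨-, hw1, hw2, hw3⟩, hx2⟩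
    simp only at hx hv1 hv2 hv3 hw1 hw2 hw3 hx2 hx'
    subst hx2
    have hnf : ∀ y : E3, y ≠ 0 → ⟪x2, y⟫_ℝ = sf K y → y ∈ closure O → y ∈ O := by
      intro y hy0 hy hyc
      by_contra hyO
      have h1 := hlt y ⟨hyc, by rwa [hO.interior_eq]⟩ hy0
      have h2 := hK'.le_sf hx' y
      linarith
    have hv0 : v ≠ 0 := by intro h; rw [h] at hv1; simp at hv1
    have hseg : segment ℝ v w ⊆ O := by
      refine (convex_segment v w).isPreconnected.subset_of_closure_inter_subset hO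
        ⟨v, left_mem_segment _ _ _, hnf v hv0 hv3 hv2⟩ ?_
      rintro y ⟨hyc, r1, r2, h1, h2, h3, rfl⟩
      refine hnf _ ?_ ?_ hyc
      · intro h0
        have e1 : r1 • v = -(r2 • w) := eq_neg_of_add_eq_zero_left h0
        have e2 := congrArg norm e1
        rw [norm_neg, norm_smul, norm_smul, hv1, hw1, Real.norm_eq_abs, Real.norm_eq_abs,
          abs_of_nonneg h1, abs_of_nonneg h2] at e2
        have e3 : r1 = 1 / 2 := by linarith
        have e4 : r2 = 1 / 2 := by linarith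
        rw [e3, e4, ← smul_neg] at e1
        have e5 : v = -w := smul_right_injective E3 (by norm_num) e1
        have e6 := hK.width_pos hv0
        have e7 : -v = w := by rw [e5, neg_neg]
        rw [e7, ← hv3, ← hw3, e5, inner_neg_right] at e6
        linarith
      · apply le_antisymm (hK.le_sf hx _)
        have := hK.sf_add_le (r1 • v) (r2 • w)
        rw [hK.sf_smul h1, hK.sf_smul h2, ← hv3, ← hw3] at this
        rw [inner_add_right, real_inner_smul_right, real_inner_smul_right]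
        exact this
    exact hw2 (hseg (right_mem_segment _ _ _))
  obtain ⟨x0, hx0', hx0e, -⟩ := hK'.exists_sf u0
  have hx0 : x0 ∈ K := by
    refine hK.mem_of_forall fun w => ?_
    have hc : Continuous (fun r : ℝ => u0 + r • w) := by fun_prop
    have h1 : ∀ᶠ r in 𝓝 (0 : ℝ), u0 + r • w ∈ O :=
      hc.continuousAt.eventually (by simpa using hO.mem_nhds hu0)
    obtain ⟨r, hr1, hr2⟩ := ((h1.filter_mono nhdsWithin_le_nhds).and
      (self_mem_nhdsWithin (s := Ioi (0 : ℝ)))).exists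
    have h2 := hK'.le_sf hx0' (u0 + r • w)
    have h3 := hle _ hr1
    have h4 := hK.sf_add_le u0 (r • w)
    have hr3 : 0 < r := hr2
    rw [hK.sf_smul hr3.le] at h4
    rw [inner_add_right, real_inner_smul_right] at h2
    have h5 : r * ⟪x0, w⟫_ℝ ≤ r * sf K w := by linarith
    exact le_of_mul_le_mul_left h5 hr3
  have hx0X : x0 ∈ frontier K ∩ frontier K' :=
    ⟨hK.mem_frontier hx0 hu00 (by rw [hx0e, heq]), hK'.mem_frontier hx0' hu00 hx0e⟩
  have hx0G : x0 ∈ Good := by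
    refine ⟨(x0, ‖u0‖⁻¹ • u0), ⟨hx0, norm_smul_inv_norm hu00,
      subset_closure (hcone u0 hu0 _ (by positivity)), ?_⟩, rfl⟩
    simp only
    rw [real_inner_smul_right, hK.sf_smul (by positivity), hx0e, heq]
  have hXG : frontier K ∩ frontier K' ⊆ Good := by
    rcases isPreconnected_iff_subset_of_disjoint_closed.mp hX Good Bad hGc hBc (by
      intro x hx
      obtain ⟨v, hv1, hv2⟩ := hK.exists_normal hx.1
      have hxK := hK.comp.isClosed.frontier_subset hx.1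
      by_cases hv : v ∈ O
      · exact Or.inl ⟨(x, v), ⟨hxK, hv1, subset_closure hv, hv2⟩, rfl⟩
      · exact Or.inr ⟨(x, v), ⟨hxK, hv1, hv, hv2⟩, rfl⟩) (by
      rw [eq_empty_iff_forall_notMem]
      intro x hx
      exact hdis x (hK'.comp.isClosed.frontier_subset hx.1.2) hx.2.1 hx.2.2) with h | h
    · exact h
    · exact (hdis x0 hx0' hx0G (h hx0X)).elim
  obtain ⟨R, hR0, hR⟩ := hK.exists_bound
  obtain ⟨R', hR0', hR'⟩ := hK'.exists_bound
  set C2 := (fun q : (E3 × E3) × ℝ => q.1.1 + q.2 • q.1.2) ''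
    ({p : E3 × E3 | p.1 ∈ K ∧ ‖p.2‖ = 1 ∧ p.2 ∈ Oᶜ ∧ ⟪p.1, p.2⟫_ℝ = sf K p.2} ×ˢ
      Icc (0 : ℝ) (R' + R)) with hC2
  have hC2c : IsClosed C2 :=
    (((hK.isCompact_normals hO.isClosed_compl).prod isCompact_Icc).image (by fun_prop)).isClosed
  have hdis2 : ∀ y ∈ frontier K', y ∈ K → y ∈ C2 → False := by
    rintro y hy hyK ⟨⟨⟨x, v⟩, r⟩, ⟨⟨hx, hv1, hv2, hv3⟩, hr1, hr2⟩, hyx⟩
    simp only at hx hv1 hv2 hv3 hr1 hr2 hyx
    have h1 := hK.le_sf hyK v
    rw [← hyx, inner_add_left, real_inner_smul_left, hv3, real_inner_self_eq_norm_sq, hv1] at h1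
    have h2 : r = 0 := by linarith
    rw [h2, zero_smul, add_zero] at hyx
    subst hyx
    have hv0 : v ≠ 0 := by intro h; rw [h] at hv1; simp at hv1
    exact hdis x (hK'.comp.isClosed.frontier_subset hy)
      (hXG ⟨hK.mem_frontier hx hv0 hv3, hy⟩) ⟨(x, v), ⟨hx, hv1, hv2, hv3⟩, rfl⟩
  have hFK : frontier K' ⊆ K := by
    rcases isPreconnected_iff_subset_of_disjoint_closed.mp hF K C2 hK.comp.isClosed hC2c (by
      intro y hy
      by_cases hyK : y ∈ K
      · exact Or.inl hyK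
      right
      have hy' := hK'.comp.isClosed.frontier_subset hy
      obtain ⟨x, hx, hxe⟩ := exists_norm_eq_iInf_of_complete_convex hK.nonempty
        hK.comp.isComplete hK.conv y
      have hx2 := (norm_eq_iInf_iff_real_inner_le_zero hK.conv hx).mp hxe
      have hne : y - x ≠ 0 := fun h => hyK (by rw [sub_eq_zero.mp h]; exact hx)
      have hn : 0 < ‖y - x‖ := norm_pos_iff.mpr hne
      have hsf : ⟪x, y - x⟫_ℝ = sf K (y - x) := by
        refine le_antisymm (hK.le_sf hx _) (hK.sf_le fun z hz => ?_)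
        have := hx2 z hz
        rw [inner_sub_right, real_inner_comm, real_inner_comm x] at this
        linarith
      refine ⟨((x, ‖y - x‖⁻¹ • (y - x)), ‖y - x‖), ⟨⟨hx, norm_smul_inv_norm hne, ?_, ?_⟩,
        hn.le, ?_⟩, ?_⟩
      · intro hO'
        have h1 := hle _ (hcone _ hO' _ hn)
        simp only at h1
        rw [smul_smul, mul_inv_cancel₀ hn.ne', one_smul, ← hsf] at h1
        have h2 := hK'.le_sf hy' (y - x)
        have h3 : 0 < ⟪y - x, y - x⟫_ℝ := real_inner_self_pos.mpr hne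
        rw [inner_sub_left] at h3
        linarith
      · simp only
        rw [real_inner_smul_right, hK.sf_smul (by positivity), hsf]
      · exact le_trans (norm_sub_le _ _) (add_le_add (hR' y hy') (hR x hx))
      · simp only
        rw [smul_smul, mul_inv_cancel₀ hn.ne', one_smul]
        abel) (by
      rw [eq_empty_iff_forall_notMem]
      intro y hy
      exact hdis2 y hy.1 hy.2.1 hy.2.2) with h | h
    · exact h
    · exact (hdis2 x0 hx0X.2 hx0 (h hx0X.2)).elim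
  by_cases hu : u = 0
  · rw [hu, hK.sf_zero, hK'.sf_zero]
  · obtain ⟨x, hx, he, -⟩ := hK'.exists_sf u
    rw [← he]
    exact hK.le_sf (hFK (hK'.mem_frontier hx hu he)) u

end Pool.Agent.Lib.MP_947c47_gt
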