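import Pool.Agent.Lib.MP_947c47_gt.Winding

set_option autoImplicit false

namespace Pool.Agent.Lib.MP_947c47_gt

open Complex Set

/-- Weak maximum principle against affine functions on bounded open sets of the plane. -/
def Sub (F : ℂ → ℝ) : Prop :=
  ∀ W : Set ℂ, IsOpen W → Bornology.IsBounded W → ∀ a b c : ℝ,
    (∀ z ∈ frontier W, F z ≤ a + b * z.re + c * z.im) → ∀ z ∈ W, F z ≤ a + b * z.re + c * z.im

theorem Sub.add_affine {F : ℂ → ℝ} (h : Sub F) (a b c : ℝ) :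
    Sub (fun z => F z + (a + b * z.re + c * z.im)) := by
  intro W hW hb a' b' c' hf z hz
  have := h W hW hb (a' - a) (b' - b) (c' - c) (fun w hw => by
    have := hf w hw
    simp only at this
    linarith) z hz
  simp only
  linarith

theorem Sub.congr {F G : ℂ → ℝ} (h : Sub F) (e : ∀ z, F z = G z) : Sub G := by
  have : F = G := funext e
  rwa [← this]

theorem Sub.comp_sim {F : ℂ → ℝ} (h : Sub F) (y ω : ℂ) (hω : ω ≠ 0) :
    Sub (fun w => F (y + ω * w)) := by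
  intro W hW hb a b c hf z hz
  let φ : ℂ ≃ₜ ℂ := (Homeomorph.mulLeft₀ ω hω).trans (Homeomorph.addLeft y)
  have hφ : ∀ w, φ w = y + ω * w := fun w => rfl
  have hψ : ∀ w, φ.symm w = (w - y) * ω⁻¹ := fun w => by
    apply φ.injective
    rw [φ.apply_symm_apply, hφ]
    field_simp
    ring
  set μ := ω⁻¹ with hμ
  have haff : ∀ w : ℂ, a + b * (φ.symm w).re + c * (φ.symm w).im =
      (a - (b * μ.re + c * μ.im) * y.re - (c * μ.re - b * μ.im) * y.im) +
        (b * μ.re + c * μ.im) * w.re + (c * μ.re - b * μ.im) * w.im := fun w => by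
    rw [hψ]
    simp only [mul_re, mul_im, sub_re, sub_im]
    ring
  have hb' : Bornology.IsBounded (φ.symm ⁻¹' W) := by
    obtain ⟨R, hR⟩ := isBounded_iff_forall_norm_le.mp hb
    refine isBounded_iff_forall_norm_le.mpr ⟨‖y‖ + ‖ω‖ * R, fun w hw => ?_⟩
    have h1 := hR _ hw
    have h2 : w = y + ω * φ.symm w := by rw [← hφ, φ.apply_symm_apply]
    calc ‖w‖ = ‖y + ω * φ.symm w‖ := by rw [← h2]
      _ ≤ ‖y‖ + ‖ω * φ.symm w‖ := norm_add_le _ _
      _ = ‖y‖ + ‖ω‖ * ‖φ.symm w‖ := by rw [norm_mul]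
      _ ≤ ‖y‖ + ‖ω‖ * R := by gcongr
  have key := h (φ.symm ⁻¹' W) (hW.preimage φ.symm.continuous) hb' _ _ _ (fun w hw => by
    rw [← haff]
    rw [← φ.symm.preimage_frontier] at hw
    have := hf _ hw
    simp only at this
    rwa [← hφ, φ.apply_symm_apply] at this) (φ z) (by simpa using hz)
  rw [← haff, φ.symm_apply_apply] at key
  exact key

theorem le_zero_of_mem_closure_comp {G : ℂ → ℝ} (hc : Continuous G) {y0 z : ℂ}
    (hz : z ∈ closure (pathComponentIn {z | 0 < G z} y0))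
    (hn : z ∉ pathComponentIn {z | 0 < G z} y0) : G z ≤ 0 := by
  by_contra hpos
  push Not at hpos
  have hU : IsOpen {z | 0 < G z} := isOpen_lt continuous_const hc
  obtain ⟨w, hw1, hw2⟩ := mem_closure_iff.mp hz _ (hU.pathComponentIn z)
    (mem_pathComponentIn_self (F := {z | 0 < G z}) hpos)
  exact hn (JoinedIn.trans hw2 (JoinedIn.symm hw1))

/-- A component of the positivity set that stays in a horizontal strip meets every vertical
line at a point where the function is at least as large. -/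
theorem thin {G : ℂ → ℝ} (hc : Continuous G) (hs : Sub G) {y0 : ℂ} (h0 : 0 < G y0) {L M : ℝ}
    (hL : ∀ z, JoinedIn {z | 0 < G z} y0 z → |z.im| ≤ L ∧ G z ≤ M) (t1 : ℝ) :
    ∃ y, JoinedIn {z | 0 < G z} y0 y ∧ y.re = t1 ∧ G y0 ≤ G y := by
  have hy0 : JoinedIn {z | 0 < G z} y0 y0 := JoinedIn.refl h0
  by_cases heq : y0.re = t1
  · exact ⟨y0, hy0, heq, le_rfl⟩
  by_contra hcon
  push Not at hcon
  set C := pathComponentIn {z | 0 < G z} y0 with hC
  have hU : IsOpen {z | 0 < G z} := isOpen_lt continuous_const hc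
  have hCo : IsOpen C := hU.pathComponentIn y0
  have hclL : ∀ z ∈ closure C, |z.im| ≤ L := by
    intro z hz
    have : closure C ⊆ {z : ℂ | |z.im| ≤ L} :=
      closure_minimal (fun w hw => (hL w hw).1) (isClosed_le (by fun_prop) continuous_const)
    exact this hz
  have hK : IsCompact (closure C ∩ {z : ℂ | z.re = t1}) := by
    apply Metric.isCompact_of_isClosed_isBounded
    · exact isClosed_closure.inter (isClosed_eq (by fun_prop) continuous_const)
    · refine isBounded_iff_forall_norm_le.mpr ⟨|t1| + L, fun z hz => ?_⟩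
      have h1 := hclL z hz.1
      have h2 : z.re = t1 := hz.2
      have := norm_le_abs_re_add_abs_im z
      rw [h2] at this
      linarith
  obtain ⟨μ, hμ0, hμ1, hμ2⟩ : ∃ μ : ℝ, 0 ≤ μ ∧ μ < G y0 ∧
      ∀ z ∈ closure C ∩ {z : ℂ | z.re = t1}, G z ≤ μ := by
    rcases (closure C ∩ {z : ℂ | z.re = t1}).eq_empty_or_nonempty with he | hne
    · exact ⟨0, le_rfl, h0, by simp [he]⟩
    · obtain ⟨x, hx, hmax⟩ := hK.exists_isMaxOn hne hc.continuousOn
      refine ⟨max 0 (G x), le_max_left _ _, max_lt h0 ?_,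
        fun z hz => le_trans (hmax hz) (le_max_right _ _)⟩
      by_cases hxC : x ∈ C
      · exact hcon x hxC hx.2
      · exact lt_of_le_of_lt (le_zero_of_mem_closure_comp hc hx.1 hxC) h0
  obtain ⟨d, hd, hd0⟩ : ∃ d : ℝ, |d| = 1 ∧ 0 < d * (t1 - y0.re) := by
    rcases lt_or_gt_of_ne heq with h | h
    · exact ⟨1, by simp, by linarith⟩
    · exact ⟨-1, by simp, by linarith⟩
  set u0 := d * (t1 - y0.re) with hu0
  set η := (G y0 - μ) / (2 * u0) with hη
  have hηpos : 0 < η := div_pos (by linarith) (by linarith)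
  have hM : 0 ≤ M := le_trans h0.le (hL y0 hy0).2
  set R := M / η + u0 + 1 with hR
  have hMη : 0 ≤ M / η := div_nonneg hM hηpos.le
  set W := C ∩ {z : ℂ | 0 < d * (t1 - z.re) ∧ d * (t1 - z.re) < R} with hW
  have hWo : IsOpen W := by
    have o1 : IsOpen {z : ℂ | 0 < d * (t1 - z.re)} := isOpen_lt continuous_const (by fun_prop)
    have o2 : IsOpen {z : ℂ | d * (t1 - z.re) < R} := isOpen_lt (by fun_prop) continuous_const
    exact hCo.inter (o1.inter o2)
  have hWb : Bornology.IsBounded W := by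
    refine isBounded_iff_forall_norm_le.mpr ⟨|t1| + R + L, fun z hz => ?_⟩
    have h1 := hclL z (subset_closure hz.1)
    have h2 := hz.2.1
    have h3 := hz.2.2
    have h4 : |t1 - z.re| ≤ R := by
      have : |d * (t1 - z.re)| ≤ R := abs_le.mpr ⟨by linarith, h3.le⟩
      rwa [abs_mul, hd, one_mul] at this
    have h5 : |z.re| ≤ |t1| + R := by
      have := abs_sub_abs_le_abs_sub z.re t1
      rw [abs_sub_comm] at this
      linarith
    have := norm_le_abs_re_add_abs_im z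
    linarith
  have key := hs W hWo hWb (μ + η * d * t1) (-(η * d)) 0 (fun z hz => by
    rw [hWo.frontier_eq] at hz
    have hzc : z ∈ closure C := closure_mono inter_subset_left hz.1
    have hz2 : z ∈ {z : ℂ | 0 ≤ d * (t1 - z.re) ∧ d * (t1 - z.re) ≤ R} := by
      have o1 : IsClosed {z : ℂ | 0 ≤ d * (t1 - z.re)} :=
        isClosed_le continuous_const (by fun_prop)
      have o2 : IsClosed {z : ℂ | d * (t1 - z.re) ≤ R} :=
        isClosed_le (by fun_prop) continuous_const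
      have hsub : W ⊆ {z : ℂ | 0 ≤ d * (t1 - z.re) ∧ d * (t1 - z.re) ≤ R} :=
        fun w hw => ⟨hw.2.1.le, hw.2.2.le⟩
      exact closure_minimal hsub (o1.inter o2) hz.1
    obtain ⟨h1, h2⟩ := hz2
    have e : μ + η * d * t1 + -(η * d) * z.re + 0 * z.im = μ + η * (d * (t1 - z.re)) := by ring
    rw [e]
    have h3 : 0 ≤ η * (d * (t1 - z.re)) := mul_nonneg hηpos.le h1
    by_cases hzC : z ∈ C
    · rcases eq_or_lt_of_le h1 with h4 | h4
      · have hd' : d ≠ 0 := by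
          intro h; rw [h] at hd; simp at hd
        have : z.re = t1 := by
          have := (mul_eq_zero.mp h4.symm).resolve_left hd'
          linarith
        have := hμ2 z ⟨hzc, this⟩
        linarith
      · rcases eq_or_lt_of_le h2 with h5 | h5
        · rw [h5, hR]
          have h6 := (hL z hzC).2
          have h7 : η * (M / η + u0 + 1) = M + η * (u0 + 1) := by field_simp; ring
          have h8 : 0 ≤ η * (u0 + 1) := mul_nonneg hηpos.le (by linarith)
          linarith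
        · exact absurd ⟨hzC, h4, h5⟩ hz.2
    · have := le_zero_of_mem_closure_comp hc hzc hzC
      linarith) y0 ⟨hy0, hd0, by linarith⟩
  have e : μ + η * d * t1 + -(η * d) * y0.re + 0 * y0.im = μ + η * u0 := by rw [hu0]; ring
  have e2 : η * u0 = (G y0 - μ) / 2 := by rw [hη]; field_simp
  rw [e, e2] at key
  linarith

theorem join_vert {U : Set ℂ} (t a b : ℝ) (h : ∀ l ∈ uIcc a b, (⟨t, l⟩ : ℂ) ∈ U) :
    JoinedIn U ⟨t, a⟩ ⟨t, b⟩ := by
  apply JoinedIn.of_segment_subset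
  rintro z ⟨r1, r2, h1, h2, h3, rfl⟩
  have : r1 • (⟨t, a⟩ : ℂ) + r2 • (⟨t, b⟩ : ℂ) = ⟨t, r1 * a + r2 * b⟩ := by
    apply Complex.ext
    · simp; rw [← add_mul, h3, one_mul]
    · simp
  rw [this]
  apply h
  rw [← segment_eq_uIcc]
  exact ⟨r1, r2, h1, h2, h3, rfl⟩

theorem join_hor {U : Set ℂ} (l a b : ℝ) (h : ∀ t ∈ uIcc a b, (⟨t, l⟩ : ℂ) ∈ U) :
    JoinedIn U ⟨a, l⟩ ⟨b, l⟩ := by
  apply JoinedIn.of_segment_subset
  rintro z ⟨r1, r2, h1, h2, h3, rfl⟩
  have : r1 • (⟨a, l⟩ : ℂ) + r2 • (⟨b, l⟩ : ℂ) = ⟨r1 * a + r2 * b, l⟩ := by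
    apply Complex.ext
    · simp
    · simp; rw [← add_mul, h3, one_mul]
  rw [this]
  apply h
  rw [← segment_eq_uIcc]
  exact ⟨r1, r2, h1, h2, h3, rfl⟩

/-- Uniform convergence at the right end of horizontal strips. -/
def Lim (G : ℂ → ℝ) (k : ℝ → ℝ) : Prop :=
  ∀ L η : ℝ, 0 < η → ∃ T : ℝ, ∀ t, T ≤ t → ∀ l, |l| ≤ L → |G ⟨t, l⟩ - k l| < η

/-- `y` is joined inside the positivity set of `G` to the half plane below height `-L`. -/
def Bot (G : ℂ → ℝ) (L : ℝ) (y : ℂ) : Prop :=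
  ∃ b : ℂ, b.im ≤ -L ∧ JoinedIn {z | 0 < G z} y b

theorem thin' {G : ℂ → ℝ} (hc : Continuous G) (hs : Sub G) {y0 : ℂ} (h0 : 0 < G y0) {L M : ℝ}
    (htop : ∀ z : ℂ, L ≤ z.im → G z ≤ 0) (hM : ∀ z : ℂ, |z.im| ≤ L → G z ≤ M)
    (hb : ¬ Bot G L y0) (t1 : ℝ) :
    ∃ l, |l| ≤ L ∧ JoinedIn {z | 0 < G z} y0 ⟨t1, l⟩ ∧ G y0 ≤ G ⟨t1, l⟩ := by
  have hL : ∀ z, JoinedIn {z | 0 < G z} y0 z → |z.im| ≤ L ∧ G z ≤ M := by
    intro z hz
    have h1 : |z.im| ≤ L := by
      refine abs_le.mpr ⟨?_, ?_⟩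
      · by_contra h
        exact hb ⟨z, by linarith, hz⟩
      · by_contra h
        have h2 := htop z (by linarith)
        have h3 : 0 < G z := hz.target_mem
        linarith
    exact ⟨h1, hM z h1⟩
  obtain ⟨y, hy1, hy2, hy3⟩ := thin hc hs h0 hL t1
  have : y = ⟨t1, y.im⟩ := Complex.ext hy2 rfl
  refine ⟨y.im, (hL y hy1).1, this ▸ hy1, this ▸ hy3⟩

/-- If the limit at the right end is antitone, every positive point is joined to the bottom. -/
theorem bot_of_antitone {G : ℂ → ℝ} (hc : Continuous G) (hs : Sub G) {y0 : ℂ} (h0 : 0 < G y0)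
    {L M : ℝ} (htop : ∀ z : ℂ, L ≤ z.im → G z ≤ 0) (hM : ∀ z : ℂ, |z.im| ≤ L → G z ≤ M)
    {k : ℝ → ℝ} (hk : Lim G k) (hanti : Antitone k) : Bot G L y0 := by
  by_contra hb
  obtain ⟨T, hT⟩ := hk L (G y0 / 3) (by linarith)
  obtain ⟨l, hl, hj, hG⟩ := thin' hc hs h0 htop hM hb T
  apply hb
  refine ⟨⟨T, -L⟩, le_rfl, hj.trans (join_vert T l (-L) fun m hm => ?_)⟩
  have hl' := abs_le.mp hl
  rw [uIcc_of_ge hl'.1] at hm
  have h1 := abs_lt.mp (hT T le_rfl l hl)
  have h2 := abs_lt.mp (hT T le_rfl m (abs_le.mpr ⟨hm.1, by linarith [hm.2]⟩))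
  have h3 := hanti hm.2
  show 0 < G ⟨T, m⟩
  linarith

/-- Zigzag limit at the right end: a positive point not joined to the bottom is joined to the
ray at the local maximum. -/
theorem zigzag {G : ℂ → ℝ} (hc : Continuous G) (hs : Sub G) {y0 : ℂ} (h0 : 0 < G y0)
    {L M : ℝ} (htop : ∀ z : ℂ, L ≤ z.im → G z ≤ 0) (hM : ∀ z : ℂ, |z.im| ≤ L → G z ≤ M)
    {k : ℝ → ℝ} (hk : Lim G k) {l1 l2 : ℝ} (hl2 : |l2| ≤ L)
    (h1 : AntitoneOn k (Iic l1)) (h2 : MonotoneOn k (Icc l1 l2)) (h3 : AntitoneOn k (Ici l2))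
    (hb : ¬ Bot G L y0) :
    G y0 ≤ k l2 ∧ ∃ T, ∀ t, T ≤ t → JoinedIn {z | 0 < G z} y0 ⟨t, l2⟩ := by
  have main : ∀ η : ℝ, 0 < η → η ≤ G y0 / 3 → ∃ T, ∀ t, T ≤ t →
      G y0 - η < k l2 ∧ JoinedIn {z | 0 < G z} y0 ⟨t, l2⟩ := by
    intro η hη hη'
    obtain ⟨T, hT⟩ := hk L η hη
    refine ⟨T, fun t ht => ?_⟩
    obtain ⟨l, hl, hj, hG⟩ := thin' hc hs h0 htop hM hb t
    have hl' := abs_le.mp hl
    have hl2' := abs_le.mp hl2
    have e1 := abs_lt.mp (hT t ht l hl)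
    have hl1 : l1 < l := by
      by_contra hle
      push Not at hle
      apply hb
      refine ⟨⟨t, -L⟩, le_rfl, hj.trans (join_vert t l (-L) fun m hm => ?_)⟩
      rw [uIcc_of_ge hl'.1] at hm
      have e2 := abs_lt.mp (hT t ht m (abs_le.mpr ⟨hm.1, by linarith [hm.2]⟩))
      have e3 := h1 (show m ∈ Iic l1 from le_trans hm.2 hle) (show l ∈ Iic l1 from hle) hm.2
      show 0 < G ⟨t, m⟩
      linarith
    have hmono : ∀ m ∈ uIcc l l2, k l ≤ k m := by
      intro m hm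
      rcases le_total l l2 with h | h
      · rw [uIcc_of_le h] at hm
        exact h2 ⟨hl1.le, h⟩ ⟨by linarith [hm.1], hm.2⟩ hm.1
      · rw [uIcc_of_ge h] at hm
        exact h3 (show m ∈ Ici l2 from hm.1) (show l ∈ Ici l2 from h) hm.2
    refine ⟨by linarith [hmono l2 right_mem_uIcc], hj.trans (join_vert t l l2 fun m hm => ?_)⟩
    have hm' : |m| ≤ L := by
      rcases mem_uIcc.mp hm with h | h <;> exact abs_le.mpr ⟨by linarith [h.1], by linarith [h.2]⟩
    have e2 := abs_lt.mp (hT t ht m hm')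
    have e3 := hmono m hm
    show 0 < G ⟨t, m⟩
    linarith
  constructor
  · apply le_of_forall_pos_le_add
    intro η hη
    obtain ⟨T, hT⟩ := main (min η (G y0 / 3)) (lt_min hη (by linarith)) (min_le_right _ _)
    have := (hT T le_rfl).1
    linarith [min_le_left η (G y0 / 3)]
  · obtain ⟨T, hT⟩ := main (G y0 / 3) (by linarith) le_rfl
    exact ⟨T, fun t ht => (hT t ht).2⟩

theorem joinedIn_bdd {U : Set ℂ} {x y : ℂ} (h : JoinedIn U x y) :
    ∃ B : ℝ, JoinedIn (U ∩ {z | |z.re| ≤ B}) x y := by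
  obtain ⟨γ, hγ⟩ := h
  obtain ⟨B, hB⟩ := isBounded_iff_forall_norm_le.mp
    (isCompact_range γ.continuous).isBounded
  exact ⟨B, γ, fun t => ⟨hγ t, le_trans (abs_re_le_norm _) (hB _ ⟨t, rfl⟩)⟩⟩

theorem exists_fun_of_joinedIn {U : Set ℂ} {x y : ℂ} (h : JoinedIn U x y) :
    ∃ p : ℝ → ℂ, Continuous p ∧ p 0 = x ∧ p 1 = y ∧ ∀ s, p s ∈ U := by
  obtain ⟨γ, hγ⟩ := h
  refine ⟨γ.extend, γ.continuous_extend, γ.extend_zero, γ.extend_one, fun s => ?_⟩
  have : γ.extend s ∈ range γ.extend := ⟨s, rfl⟩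
  rw [γ.extend_range] at this
  obtain ⟨t, ht⟩ := this
  rw [← ht]
  exact hγ t

/-- If the limit at the right end is negative at `l1` and positive at the larger `l2`, the ray
at height `l2` is not joined to the bottom. -/
theorem not_bot_ray {G : ℂ → ℝ} (hc : Continuous G) (hs' : Sub (fun z => -G z))
    {L M : ℝ} (htop : ∀ z : ℂ, L ≤ z.im → G z ≤ 0) (hbot : ∀ z : ℂ, z.im ≤ -L → 0 ≤ G z)
    (hM : ∀ z : ℂ, |z.im| ≤ L → -G z ≤ M)
    {k : ℝ → ℝ} (hk : Lim G k) {l1 l2 : ℝ} (hl1 : |l1| ≤ L) (hl2 : |l2| ≤ L) (hlt : l1 < l2)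
    (h1 : k l1 < 0) (h2 : 0 < k l2) :
    ∃ T, ∀ t, T ≤ t → 0 < G ⟨t, l2⟩ ∧ ¬ Bot G L ⟨t, l2⟩ := by
  obtain ⟨T0, hT0⟩ := hk L (min (-k l1) (k l2)) (lt_min (by linarith) h2)
  have hpos : ∀ t, T0 ≤ t → 0 < G ⟨t, l2⟩ := fun t ht => by
    have := abs_lt.mp (hT0 t ht l2 hl2)
    linarith [min_le_right (-k l1) (k l2)]
  have hneg : ∀ t, T0 ≤ t → 0 < -G ⟨t, l1⟩ := fun t ht => by
    have := abs_lt.mp (hT0 t ht l1 hl1)
    linarith [min_le_left (-k l1) (k l2)]
  refine ⟨T0, fun t0 ht0 => ⟨hpos t0 ht0, ?_⟩⟩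
  rintro ⟨b0, hb0, hj⟩
  obtain ⟨B, hB⟩ := joinedIn_bdd hj.symm
  obtain ⟨z, hz, hz'⟩ : ∃ z : ℂ, JoinedIn {z | 0 < -G z} ⟨t0, l1⟩ z ∧
      (L ≤ z.im ∨ z.re < -B) := by
    by_contra hcon
    push Not at hcon
    obtain ⟨y, hy1, hy2, -⟩ := thin (G := fun z => -G z) hc.neg hs' (hneg t0 ht0) (L := L) (M := M)
      (fun z hz => by
        have e1 := (hcon z hz).1
        have e2 : 0 < -G z := hz.target_mem
        have e3 : -L < z.im := by
          by_contra h
          have := hbot z (by linarith)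
          linarith
        have e4 : |z.im| ≤ L := abs_le.mpr ⟨e3.le, e1.le⟩
        exact ⟨e4, hM z e4⟩) (-B - 1)
    have := (hcon y hy1).2
    linarith
  obtain ⟨B', hB'⟩ := joinedIn_bdd hz
  have hBt : |t0| ≤ B := hB.target_mem.2
  have hBt' := abs_le.mp hBt
  set T := max B B' with hT
  have hTB : B ≤ T := le_max_left _ _
  have hTB' : B' ≤ T := le_max_right _ _
  have jp : JoinedIn ({z | 0 < G z} ∩ {z | -B ≤ z.re ∧ z.re ≤ T}) b0 ⟨T, l2⟩ := by
    refine JoinedIn.trans (y := ⟨t0, l2⟩) (hB.mono fun w hw => ?_)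
      (join_hor l2 t0 T fun t ht => ?_)
    · have := abs_le.mp (show |w.re| ≤ B from hw.2)
      exact ⟨hw.1, this.1, by linarith [this.2]⟩
    · rw [uIcc_of_le (by linarith)] at ht
      exact ⟨hpos t (by linarith [ht.1]), by simp; linarith [ht.1], ht.2⟩
  have jq : JoinedIn ({z | 0 < -G z} ∩ {z | z.re ≤ T}) ⟨T, l1⟩ z := by
    refine (join_hor l1 T t0 fun t ht => ?_).trans (hB'.mono fun w hw => ⟨hw.1, ?_⟩)
    · rw [uIcc_of_ge (by linarith)] at ht
      exact ⟨hneg t (by linarith [ht.1]), ht.2⟩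
    · have := abs_le.mp (show |w.re| ≤ B' from hw.2)
      show w.re ≤ T
      linarith [this.2]
  obtain ⟨p, hp, hp0, hp1, hpU⟩ := exists_fun_of_joinedIn jp
  obtain ⟨q, hq, hq0, hq1, hqU⟩ := exists_fun_of_joinedIn jq
  refine crossing p q hp hq (fun s t h => ?_) T (by rw [hp1]) (by rw [hq0])
    (by rw [hp1, hq0]; exact hlt) (fun s => (hpU s).2.2) (fun t => (hqU t).2) (fun t => ?_) ?_
  · have e1 : 0 < G (p s) := (hpU s).1
    have e2 : 0 < -G (q t) := (hqU t).1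
    rw [h] at e1
    linarith
  · rw [hp0]
    have e2 : 0 < -G (q t) := (hqU t).1
    by_contra h
    have := hbot (q t) (by linarith)
    linarith
  · rw [hq1]
    rcases hz' with h | h
    · left
      intro s
      have e1 : 0 < G (p s) := (hpU s).1
      by_contra h'
      have := htop (p s) (by linarith)
      linarith
    · right
      intro s
      linarith [(hpU s).2.1]

end Pool.Agent.Lib.MP_947c47_gt
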