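import Pool.Agent.Lib.MP_947c47_gt.Support

set_option autoImplicit false

namespace Pool.Agent.Lib.MP_947c47_gt

open Set Filter Topology
open scoped InnerProductSpace

/-- Orthonormal frame of 3-space. -/
structure Frame (a b c : E3) : Prop where
  aa : ⟪a, a⟫_ℝ = 1
  bb : ⟪b, b⟫_ℝ = 1
  cc : ⟪c, c⟫_ℝ = 1
  ab : ⟪a, b⟫_ℝ = 0
  ac : ⟪a, c⟫_ℝ = 0
  bc : ⟪b, c⟫_ℝ = 0
  span : ∀ u : E3, u = ⟪u, a⟫_ℝ • a + ⟪u, b⟫_ℝ • b + ⟪u, c⟫_ℝ • c

theorem Frame.ba {a b c : E3} (h : Frame a b c) : ⟪b, a⟫_ℝ = 0 := by rw [real_inner_comm, h.ab]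
theorem Frame.ca {a b c : E3} (h : Frame a b c) : ⟪c, a⟫_ℝ = 0 := by rw [real_inner_comm, h.ac]
theorem Frame.cb {a b c : E3} (h : Frame a b c) : ⟪c, b⟫_ℝ = 0 := by rw [real_inner_comm, h.bc]

theorem Frame.swap12 {a b c : E3} (h : Frame a b c) : Frame b a c :=
  ⟨h.bb, h.aa, h.cc, h.ba, h.bc, h.ac, fun u => by
    conv_lhs => rw [h.span u]
    abel⟩

theorem Frame.swap23 {a b c : E3} (h : Frame a b c) : Frame a c b :=
  ⟨h.aa, h.cc, h.bb, h.ac, h.ab, h.cb, fun u => by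
    conv_lhs => rw [h.span u]
    abel⟩

theorem Frame.neg3 {a b c : E3} (h : Frame a b c) : Frame a b (-c) :=
  ⟨h.aa, h.bb, by rw [inner_neg_neg, h.cc], h.ab, by simp [h.ac], by simp [h.bc], fun u => by
    conv_lhs => rw [h.span u]
    simp⟩

theorem frame_of_basis (B : OrthonormalBasis (Fin 3) ℝ E3) : Frame (B 0) (B 1) (B 2) := by
  have h := orthonormal_iff_ite.mp B.orthonormal
  refine ⟨by simp, by simp, by simp, by rw [h]; simp, by rw [h]; simp,
    by rw [h]; simp, fun u => ?_⟩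
  conv_lhs => rw [← B.sum_repr' u]
  simp [Fin.sum_univ_three, real_inner_comm]

theorem exists_frame2 {a b : E3} (ha : ‖a‖ = 1) (hb : ‖b‖ = 1) (hab : ⟪a, b⟫_ℝ = 0) :
    ∃ c, Frame a b c := by
  have hv : Orthonormal ℝ (({0, 1} : Set (Fin 3)).domRestrict (![a, b, 0] : Fin 3 → E3)) := by
    rw [orthonormal_iff_ite]
    rintro ⟨i, hi⟩ ⟨j, hj⟩
    have hba : ⟪b, a⟫_ℝ = 0 := by rw [real_inner_comm, hab]
    rcases hi with rfl | rfl <;> rcases hj with rfl | rfl <;> simp [ha, hb, hab, hba]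
  obtain ⟨B, hB⟩ := hv.exists_orthonormalBasis_extension_of_card_eq (by simp)
  have h0 : B 0 = a := hB 0 (by simp)
  have h1 : B 1 = b := hB 1 (by simp)
  exact ⟨B 2, h0 ▸ h1 ▸ frame_of_basis B⟩

theorem exists_frame1 {a : E3} (ha : ‖a‖ = 1) : ∃ b c, Frame a b c := by
  have hv : Orthonormal ℝ (({0} : Set (Fin 3)).domRestrict (![a, 0, 0] : Fin 3 → E3)) := by
    rw [orthonormal_iff_ite]
    rintro ⟨i, hi⟩ ⟨j, hj⟩
    rcases hi with rfl
    rcases hj with rfl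
    simp [ha]
  obtain ⟨B, hB⟩ := hv.exists_orthonormalBasis_extension_of_card_eq (by simp)
  have h0 : B 0 = a := hB 0 (by simp)
  exact ⟨B 1, B 2, h0 ▸ frame_of_basis B⟩

theorem frame_of_orth {a b c : E3} (ha : ‖a‖ = 1) (hb : ‖b‖ = 1) (hc : ‖c‖ = 1)
    (hab : ⟪a, b⟫_ℝ = 0) (hac : ⟪a, c⟫_ℝ = 0) (hbc : ⟪b, c⟫_ℝ = 0) : Frame a b c := by
  have hv : Orthonormal ℝ ((univ : Set (Fin 3)).domRestrict (![a, b, c] : Fin 3 → E3)) := by
    rw [orthonormal_iff_ite]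
    rintro ⟨i, hi⟩ ⟨j, hj⟩
    have hba : ⟪b, a⟫_ℝ = 0 := by rw [real_inner_comm, hab]
    have hca : ⟪c, a⟫_ℝ = 0 := by rw [real_inner_comm, hac]
    have hcb : ⟪c, b⟫_ℝ = 0 := by rw [real_inner_comm, hbc]
    fin_cases i <;> fin_cases j <;> simp [ha, hb, hc, hab, hba, hac, hca, hbc, hcb]
  obtain ⟨B, hB⟩ := hv.exists_orthonormalBasis_extension_of_card_eq (by simp)
  have h0 : B 0 = a := hB 0 (by simp)
  have h1 : B 1 = b := hB 1 (by simp)
  have h2 : B 2 = c := hB 2 (by simp)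
  exact h0 ▸ h1 ▸ h2 ▸ frame_of_basis B

/-- The point of the affine chart at height one over the third frame vector. -/
noncomputable def pt (a b c : E3) (z : ℂ) : E3 := z.re • a + z.im • b + c

theorem continuous_pt (a b c : E3) : Continuous (pt a b c) := by
  unfold pt; fun_prop

theorem Frame.pt_a {a b c : E3} (h : Frame a b c) (z : ℂ) : ⟪pt a b c z, a⟫_ℝ = z.re := by
  simp [pt, inner_add_left, real_inner_smul_left, h.aa, h.ba, h.ca, -inner_self_eq_norm_sq_to_K]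
theorem Frame.pt_b {a b c : E3} (h : Frame a b c) (z : ℂ) : ⟪pt a b c z, b⟫_ℝ = z.im := by
  simp [pt, inner_add_left, real_inner_smul_left, h.bb, h.ab, h.cb, -inner_self_eq_norm_sq_to_K]
theorem Frame.pt_c {a b c : E3} (h : Frame a b c) (z : ℂ) : ⟪pt a b c z, c⟫_ℝ = 1 := by
  simp [pt, inner_add_left, real_inner_smul_left, h.cc, h.ac, h.bc, -inner_self_eq_norm_sq_to_K]

/-- The connectedness property of the problem. -/
def PropP (K : Set E3) : Prop :=
  ∀ f : E3 ≃ᵢ E3, frontier K ∩ f '' (frontier K) = ∅ ∨ IsConnected (frontier K ∩ f '' (frontier K))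

theorem PropP.pre {K : Set E3} (h : PropP K) (f : E3 ≃ᵢ E3) :
    IsPreconnected (frontier K ∩ f '' (frontier K)) := by
  rcases h f with h | h
  · rw [h]; exact isPreconnected_empty
  · exact h.isPreconnected

theorem inner_invol (σ : E3 ≃ₗᵢ[ℝ] E3) (hσ : ∀ x, σ (σ x) = x) (x u : E3) :
    ⟪σ x, u⟫_ℝ = ⟪x, σ u⟫_ℝ := by
  conv_lhs => rw [← hσ u]
  exact σ.inner_map_map x (σ u)

theorem core_invol {K : Set E3} (hK : Body K) (hP : PropP K) (σ : E3 ≃ₗᵢ[ℝ] E3)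
    (hσ : ∀ x, σ (σ x) = x) (t : E3)
    {O : Set E3} (hO : IsOpen O) (hcone : ∀ u ∈ O, ∀ r : ℝ, 0 < r → r • u ∈ O)
    (hle : ∀ u ∈ O, sf K (σ u) + ⟪t, u⟫_ℝ ≤ sf K u) {u0 : E3} (hu0 : u0 ∈ O) (hu00 : u0 ≠ 0)
    (heq : sf K (σ u0) + ⟪t, u0⟫_ℝ = sf K u0)
    (hlt : ∀ u ∈ frontier O, u ≠ 0 → sf K (σ u) + ⟪t, u⟫_ℝ < sf K u) (u : E3) :
    sf K (σ u) + ⟪t, u⟫_ℝ = sf K u := by
  let f : E3 ≃ᵢ E3 := σ.toIsometryEquiv.trans (IsometryEquiv.addRight t)
  have hf : ∀ x, f x = σ x + t := fun x => rfl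
  have hfr : f '' frontier K = frontier (f '' K) := f.toHomeomorph.image_frontier K
  have hK' : Body (f '' K) := by
    refine ⟨?_, hK.comp.image f.continuous, ?_⟩
    · rintro _ ⟨x, hx, rfl⟩ _ ⟨y, hy, rfl⟩ r1 r2 h1 h2 h3
      refine ⟨r1 • x + r2 • y, hK.conv hx hy h1 h2 h3, ?_⟩
      rw [hf, hf, hf, map_add, map_smul, map_smul, smul_add, smul_add]
      have : t = r1 • t + r2 • t := by rw [← add_smul, h3, one_smul]
      conv_lhs => rw [this]
      abel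
    · have : f '' interior K = interior (f '' K) := f.toHomeomorph.image_interior K
      rw [← this]
      exact hK.int.image f
  have hsf : ∀ u, sf (f '' K) u = sf K (σ u) + ⟪t, u⟫_ℝ := by
    intro u
    apply le_antisymm
    · refine hK'.sf_le ?_
      rintro _ ⟨x, hx, rfl⟩
      rw [hf, inner_add_left, inner_invol σ hσ]
      linarith [hK.le_sf hx (σ u)]
    · obtain ⟨x, hx, he, -⟩ := hK.exists_sf (σ u)
      have := hK'.le_sf (mem_image_of_mem f hx) u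
      rw [hf, inner_add_left, inner_invol σ hσ, he] at this
      exact this
  have h1 : IsPreconnected (frontier K) := by
    have := hP.pre (IsometryEquiv.refl E3)
    have e : (IsometryEquiv.refl E3) '' frontier K = frontier K := image_id _
    rwa [e, inter_self] at this
  have key := core hK hK' (hfr ▸ hP.pre f) (hfr ▸ h1.image f f.continuous.continuousOn) hO hcone
    (fun u hu => by rw [hsf]; exact hle u hu) hu0 hu00 (by rw [hsf]; exact heq)
    (fun u hu hu' => by rw [hsf]; exact hlt u hu hu')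
  have key2 : ∀ u, ⟪t, u⟫_ℝ + ⟪t, σ u⟫_ℝ ≤ 0 := by
    intro u
    have e1 := key u
    have e2 := key (σ u)
    rw [hsf] at e1 e2
    rw [hσ] at e2
    linarith
  have e1 := key u
  have e2 := key (σ u)
  have e3 := key2 (-u)
  rw [hsf] at e1 e2
  rw [hσ] at e2
  rw [map_neg, inner_neg_right, inner_neg_right] at e3
  linarith

/-- The weak maximum principle for the difference of support functions. -/
theorem wmp {K : Set E3} (hK : Body K) (hP : PropP K) (σ : E3 ≃ₗᵢ[ℝ] E3)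
    (hσ : ∀ x, σ (σ x) = x) {n τ ξ : E3} (hF : Frame n τ ξ) :
    Sub (fun z => sf K (σ (pt n τ ξ z)) - sf K (pt n τ ξ z)) := by
  intro W hW hb a b c hf z0 hz0
  by_contra hcon
  push Not at hcon
  set D : ℂ → ℝ := fun z => sf K (σ (pt n τ ξ z)) - sf K (pt n τ ξ z) - (a + b * z.re + c * z.im)
    with hD
  have hDc : Continuous D := by
    have := hK.continuous_sf
    have := continuous_pt n τ ξ
    rw [hD]; fun_prop
  obtain ⟨z1, hz1, hmax⟩ := hb.isCompact_closure.exists_isMaxOn ⟨z0, subset_closure hz0⟩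
    hDc.continuousOn
  set δ := D z1 with hδ
  have hδ0 : 0 < δ := lt_of_lt_of_le (by simp only [hD]; linarith) (hmax (subset_closure hz0))
  have hfr : ∀ z ∈ frontier W, D z ≤ 0 := fun z hz => by
    have := hf z hz
    simp only [hD]; linarith
  have hz1W : z1 ∈ W := by
    by_contra h
    have := hfr z1 ⟨hz1, by rwa [hW.interior_eq]⟩
    linarith
  set t : E3 := -((a + δ) • ξ + b • n + c • τ) with ht
  have hpt : ∀ z, sf K (σ (pt n τ ξ z)) + ⟪t, pt n τ ξ z⟫_ℝ - sf K (pt n τ ξ z) = D z - δ := by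
    intro z
    have : ⟪t, pt n τ ξ z⟫_ℝ = -(a + δ + b * z.re + c * z.im) := by
      rw [real_inner_comm, ht, inner_neg_right, inner_add_right, inner_add_right,
        real_inner_smul_right, real_inner_smul_right, real_inner_smul_right, hF.pt_a, hF.pt_b,
        hF.pt_c]
      ring
    rw [this]; simp only [hD]; ring
  let ch : E3 → ℂ := fun u => ⟨⟪u, n⟫_ℝ / ⟪u, ξ⟫_ℝ, ⟪u, τ⟫_ℝ / ⟪u, ξ⟫_ℝ⟩
  have hch : ∀ u : E3, 0 < ⟪u, ξ⟫_ℝ → u = ⟪u, ξ⟫_ℝ • pt n τ ξ (ch u) := by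
    intro u hu
    conv_lhs => rw [hF.span u]
    simp only [pt, ch, smul_add, smul_smul]
    rw [mul_div_cancel₀ _ hu.ne', mul_div_cancel₀ _ hu.ne']
  have hval : ∀ u : E3, 0 < ⟪u, ξ⟫_ℝ →
      sf K (σ u) + ⟪t, u⟫_ℝ - sf K u = ⟪u, ξ⟫_ℝ * (D (ch u) - δ) := by
    intro u hu
    rw [← hpt]
    conv_lhs => rw [hch u hu]
    rw [map_smul, hK.sf_smul hu.le, hK.sf_smul hu.le, real_inner_smul_right]
    ring
  have hchc : ContinuousOn ch {u | 0 < ⟪u, ξ⟫_ℝ} := by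
    have e : ch = fun u => ((⟪u, n⟫_ℝ / ⟪u, ξ⟫_ℝ : ℝ) : ℂ) +
        ((⟪u, τ⟫_ℝ / ⟪u, ξ⟫_ℝ : ℝ) : ℂ) * Complex.I := by
      funext u; exact Complex.mk_eq_add_mul_I _ _
    rw [e]
    refine ContinuousOn.add ?_ (ContinuousOn.mul ?_ continuousOn_const)
    · exact Complex.continuous_ofReal.comp_continuousOn
        (ContinuousOn.div (by fun_prop) (by fun_prop) fun u hu => ne_of_gt hu)
    · exact Complex.continuous_ofReal.comp_continuousOn
        (ContinuousOn.div (by fun_prop) (by fun_prop) fun u hu => ne_of_gt hu)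
  have hpo : IsOpen {u : E3 | 0 < ⟪u, ξ⟫_ℝ} := isOpen_lt continuous_const (by fun_prop)
  set O := {u : E3 | 0 < ⟪u, ξ⟫_ℝ} ∩ ch ⁻¹' W with hO
  have hOo : IsOpen O := hchc.isOpen_inter_preimage hpo hW
  have hchpt : ∀ z, ch (pt n τ ξ z) = z := fun z => by
    simp only [ch, hF.pt_a, hF.pt_b, hF.pt_c, div_one]
  obtain ⟨B, hB⟩ := isBounded_iff_forall_norm_le.mp hb
  have key := core_invol hK hP σ hσ t hOo (u0 := pt n τ ξ z1) (by
      rintro u ⟨hu1, hu2⟩ r hr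
      have hu1' : 0 < ⟪u, ξ⟫_ℝ := hu1
      refine ⟨?_, ?_⟩
      · show 0 < ⟪r • u, ξ⟫_ℝ
        rw [real_inner_smul_left]; positivity
      · have : ch (r • u) = ch u := by
          simp only [ch, real_inner_smul_left]
          rw [mul_div_mul_left _ _ hr.ne', mul_div_mul_left _ _ hr.ne']
        show ch (r • u) ∈ W
        rw [this]; exact hu2) (by
      rintro u ⟨hu1, hu2⟩
      have h1 := hval u hu1
      have h2 : D (ch u) ≤ δ := hmax (subset_closure hu2)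
      have h3 : ⟪u, ξ⟫_ℝ * (D (ch u) - δ) ≤ 0 :=
        mul_nonpos_of_nonneg_of_nonpos (le_of_lt hu1) (by linarith)
      linarith) ⟨by show 0 < ⟪pt n τ ξ z1, ξ⟫_ℝ; rw [hF.pt_c]; norm_num,
        by show ch (pt n τ ξ z1) ∈ W; rw [hchpt]; exact hz1W⟩ (by
      intro h
      have := hF.pt_c z1
      rw [h] at this; simp at this) (by
      have := hpt z1
      linarith) (by
      intro u hu hu0
      have hcl : u ∈ {u : E3 | |⟪u, n⟫_ℝ| ≤ B * ⟪u, ξ⟫_ℝ ∧ |⟪u, τ⟫_ℝ| ≤ B * ⟪u, ξ⟫_ℝ ∧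
          0 ≤ ⟪u, ξ⟫_ℝ} := by
        have o1 : IsClosed {u : E3 | |⟪u, n⟫_ℝ| ≤ B * ⟪u, ξ⟫_ℝ} :=
          isClosed_le (by fun_prop) (by fun_prop)
        have o2 : IsClosed {u : E3 | |⟪u, τ⟫_ℝ| ≤ B * ⟪u, ξ⟫_ℝ} :=
          isClosed_le (by fun_prop) (by fun_prop)
        have o3 : IsClosed {u : E3 | 0 ≤ ⟪u, ξ⟫_ℝ} := isClosed_le (by fun_prop) (by fun_prop)
        have hsub : O ⊆ {u : E3 | |⟪u, n⟫_ℝ| ≤ B * ⟪u, ξ⟫_ℝ ∧ |⟪u, τ⟫_ℝ| ≤ B * ⟪u, ξ⟫_ℝ ∧
            0 ≤ ⟪u, ξ⟫_ℝ} := by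
          rintro w ⟨hw1, hw2⟩
          have hw1' : 0 < ⟪w, ξ⟫_ℝ := hw1
          have h1 := le_trans (Complex.abs_re_le_norm _) (hB _ hw2)
          have h2 := le_trans (Complex.abs_im_le_norm _) (hB _ hw2)
          simp only [ch] at h1 h2
          rw [abs_div, abs_of_pos hw1', div_le_iff₀ hw1'] at h1 h2
          exact ⟨h1, h2, hw1'.le⟩
        exact closure_minimal hsub (o1.inter (o2.inter o3)) hu.1
      obtain ⟨h1, h2, h3⟩ := hcl
      have h4 : 0 < ⟪u, ξ⟫_ℝ := by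
        rcases eq_or_lt_of_le h3 with h | h
        · exfalso
          apply hu0
          rw [← h, mul_zero] at h1 h2
          rw [hF.span u, ← h, abs_nonpos_iff.mp h1, abs_nonpos_iff.mp h2]
          simp
        · exact h
      have h5 : ch u ∈ closure W := by
        have : ContinuousWithinAt ch O u :=
          (hchc.continuousAt (hpo.mem_nhds h4)).continuousWithinAt
        exact this.mem_closure hu.1 fun w hw => hw.2
      have h6 : ch u ∉ W := fun h => hu.2 (by rw [hOo.interior_eq]; exact ⟨h4, h⟩)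
      have h7 := hfr (ch u) ⟨h5, by rwa [hW.interior_eq]⟩
      have h8 := hval u h4
      have h9 : ⟪u, ξ⟫_ℝ * (D (ch u) - δ) < 0 := mul_neg_of_pos_of_neg h4 (by linarith)
      linarith)
  obtain ⟨z2, hz2⟩ : (frontier W).Nonempty := by
    rw [nonempty_frontier_iff]
    refine ⟨⟨z0, hz0⟩, fun h => ?_⟩
    rw [h] at hb
    exact NormedSpace.unbounded_univ ℝ ℂ hb
  have h1 := hfr z2 hz2
  have h2 := hpt z2
  have h3 := key (pt n τ ξ z2)
  linarith

end Pool.Agent.Lib.MP_947c47_gt
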